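import Mathlib

/-!
Partial sums, averages and dyadic averages of functions on `ℕ`, and control of the quadratic
variation of the averages within a dyadic block of lengths.
-/

set_option autoImplicit false

open Finset

namespace Pool.Agent.J6H52.Jump

/-- partial sums -/
noncomputable def S (f : ℕ → ℝ) (x : ℕ) : ℝ := ∑ j ∈ range x, f j

/-- the average of `f` over `[n, n + m)` -/
noncomputable def A (f : ℕ → ℝ) (n m : ℕ) : ℝ := (S f (n + m) - S f n) / m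

/-- the average of `f` over the dyadic interval of length `2 ^ k` containing `n` -/
noncomputable def E (k : ℕ) (f : ℕ → ℝ) (n : ℕ) : ℝ :=
  (S f (2 ^ k * (n / 2 ^ k) + 2 ^ k) - S f (2 ^ k * (n / 2 ^ k))) / 2 ^ k

/-- `u` is constant on the dyadic intervals of length `2 ^ l` -/
def Cst (l : ℕ) (u : ℕ → ℝ) : Prop := ∀ n m : ℕ, n / 2 ^ l = m / 2 ^ l → u n = u m

/-- the sums of `u` over the dyadic intervals of length `2 ^ l` vanish -/
def Zr (l : ℕ) (u : ℕ → ℝ) : Prop := ∀ i : ℕ, S u (2 ^ l * i) = 0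

lemma S_sub (f g : ℕ → ℝ) (x : ℕ) : S (fun j => f j - g j) x = S f x - S g x := by
  simp [S, sum_sub_distrib]

lemma S_add (f g : ℕ → ℝ) (x : ℕ) : S (fun j => f j + g j) x = S f x + S g x := by
  simp [S, sum_add_distrib]

lemma S_sum {ι : Type*} (s : Finset ι) (f : ι → ℕ → ℝ) (x : ℕ) :
    S (fun j => ∑ i ∈ s, f i j) x = ∑ i ∈ s, S (f i) x := by
  simp only [S]
  exact sum_comm

lemma S_succ (f : ℕ → ℝ) (x : ℕ) : S f (x + 1) = S f x + f x := by
  simp [S, sum_range_succ]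

lemma S_mono {f : ℕ → ℝ} (hf : ∀ j, 0 ≤ f j) : Monotone (S f) := by
  refine monotone_nat_of_le_succ fun x => ?_
  rw [S_succ]; linarith [hf x]

lemma S_Ico (f : ℕ → ℝ) {x y : ℕ} (h : x ≤ y) : S f y - S f x = ∑ j ∈ Ico x y, f j := by
  rw [S, S, sum_Ico_eq_sub _ h]

lemma S_range (f : ℕ → ℝ) (x y : ℕ) : S f (x + y) - S f x = ∑ r ∈ range y, f (x + r) := by
  rw [S, S, sum_range_add_sub_sum_range]

lemma A_sum {ι : Type*} (s : Finset ι) (f : ι → ℕ → ℝ) (n m : ℕ) :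
    A (fun j => ∑ i ∈ s, f i j) n m = ∑ i ∈ s, A (f i) n m := by
  simp only [A, S_sum]
  rw [← sum_sub_distrib, sum_div]

lemma E_sum {ι : Type*} (s : Finset ι) (f : ι → ℕ → ℝ) (k n : ℕ) :
    E k (fun j => ∑ i ∈ s, f i j) n = ∑ i ∈ s, E k (f i) n := by
  simp only [E, S_sum]
  rw [← sum_sub_distrib, sum_div]

lemma E_cst (k : ℕ) (f : ℕ → ℝ) : Cst k (E k f) := by
  intro n m h
  simp only [E, h]

lemma Cst.mono {l l' : ℕ} {u : ℕ → ℝ} (h : Cst l u) (hl : l' ≤ l) : Cst l' u := by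
  intro n m hnm
  apply h
  obtain ⟨d, rfl⟩ := Nat.exists_eq_add_of_le hl
  rw [pow_add, ← Nat.div_div_eq_div_mul, ← Nat.div_div_eq_div_mul, hnm]

lemma Zr.mono {l l' : ℕ} {u : ℕ → ℝ} (h : Zr l u) (hl : l ≤ l') : Zr l' u := by
  intro i
  obtain ⟨d, rfl⟩ := Nat.exists_eq_add_of_le hl
  rw [pow_add, mul_assoc]
  exact h _

lemma Zr.E_eq {l k : ℕ} {u : ℕ → ℝ} (h : Zr l u) (hl : l ≤ k) (n : ℕ) : E k u n = 0 := by
  have h1 := h.mono hl
  have h2 := h1 (n / 2 ^ k)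
  have h3 := h1 (n / 2 ^ k + 1)
  rw [mul_add, mul_one] at h3
  rw [E, h2, h3]; simp

/-- sum over a block on which `u` is constant -/
lemma Cst.block {l : ℕ} {u : ℕ → ℝ} (h : Cst l u) (n : ℕ) {r : ℕ} (hr : r < 2 ^ l) :
    u (2 ^ l * (n / 2 ^ l) + r) = u n := by
  apply h
  rw [Nat.mul_add_div (by positivity), Nat.div_eq_of_lt hr, add_zero]

lemma Cst.E_eq {l k : ℕ} {u : ℕ → ℝ} (h : Cst l u) (hl : k ≤ l) (n : ℕ) : E k u n = u n := by
  have h1 := h.mono hl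
  rw [E, S_range, sum_congr rfl fun r hr => h1.block n (mem_range.1 hr), sum_const, card_range,
    nsmul_eq_mul]
  push_cast
  field_simp

/-- the partial sums of `f` and of `E l f` agree at the multiples of `2 ^ l` -/
lemma S_E (l : ℕ) (f : ℕ → ℝ) (i : ℕ) : S (E l f) (2 ^ l * i) = S f (2 ^ l * i) := by
  induction i with
  | zero => simp [S]
  | succ i ih =>
      have h1 := S_range (E l f) (2 ^ l * i) (2 ^ l)
      have h2 : ∀ r ∈ range (2 ^ l), E l f (2 ^ l * i + r) =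
          (S f (2 ^ l * i + 2 ^ l) - S f (2 ^ l * i)) / 2 ^ l := by
        intro r hr
        have h3 : (2 ^ l * i + r) / 2 ^ l = i := by
          rw [Nat.mul_add_div (by positivity), Nat.div_eq_of_lt (mem_range.1 hr), add_zero]
        rw [E, h3]
      rw [sum_congr rfl h2, sum_const, card_range, nsmul_eq_mul] at h1
      push_cast at h1
      rw [mul_div_cancel₀ _ (by positivity)] at h1
      rw [mul_add, mul_one]
      linarith

lemma zr_sub_E (l : ℕ) (f : ℕ → ℝ) : Zr l (fun j => f j - E l f j) := by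
  intro i
  rw [S_sub, S_E, sub_self]

lemma S_E' {l l' : ℕ} (hl : l ≤ l') (f : ℕ → ℝ) (i : ℕ) :
    S (E l f) (2 ^ l' * i) = S f (2 ^ l' * i) := by
  obtain ⟨d, rfl⟩ := Nat.exists_eq_add_of_le hl
  rw [pow_add, mul_assoc, S_E]

lemma zr_diff {l l' : ℕ} (hl : l ≤ l') (f : ℕ → ℝ) : Zr l' (fun j => E l f j - E l' f j) := by
  intro i
  rw [S_sub, S_E, S_E' hl, sub_self]

lemma E_E {k l : ℕ} (hkl : k ≤ l) (f : ℕ → ℝ) (n : ℕ) : E l (E k f) n = E l f n := by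
  have h1 := S_E' hkl f (n / 2 ^ l)
  have h2 := S_E' hkl f (n / 2 ^ l + 1)
  rw [mul_add, mul_one] at h2
  rw [E, E, h1, h2]

/-- a sum over a range of length `q a` by blocks -/
lemma sum_blocks (F : ℕ → ℝ) (q a : ℕ) :
    ∑ n ∈ range (q * a), F n = ∑ i ∈ range a, ∑ r ∈ range q, F (q * i + r) := by
  induction a with
  | zero => simp
  | succ a ih =>
      rw [mul_add, mul_one, sum_range_succ, ← ih, sum_range_add]

/-- orthogonality -/
lemma orth {l : ℕ} {u w : ℕ → ℝ} (hu : Zr l u) (hw : Cst l w) (a : ℕ) :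
    ∑ n ∈ range (2 ^ l * a), u n * w n = 0 := by
  rw [sum_blocks]
  apply sum_eq_zero
  intro i _
  have h1 : ∀ r ∈ range (2 ^ l), u (2 ^ l * i + r) * w (2 ^ l * i + r) =
      u (2 ^ l * i + r) * w (2 ^ l * i) := by
    intro r hr
    congr 1
    apply hw
    rw [Nat.mul_add_div (by positivity), Nat.div_eq_of_lt (mem_range.1 hr), add_zero,
      Nat.mul_div_cancel_left _ (by positivity)]
  rw [sum_congr rfl h1, ← sum_mul, ← S_range]
  have h2 := hu i
  have h3 := hu (i + 1)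
  rw [mul_add, mul_one] at h3
  rw [h2, h3]; ring

/-- Control of the averages over lengths `2 ^ k ≤ y ≤ 2 ^ (k + 1)`: increments are controlled by a
function `W` of total increment `≤ T`, and the values differ from `e` at most by `√T`. -/
def Ctl (k : ℕ) (φ : ℕ → ℝ) (e T : ℝ) : Prop :=
  ∃ W : ℕ → ℝ, (∀ y y' : ℕ, 2 ^ k ≤ y → y ≤ y' → y' ≤ 2 ^ (k + 1) →
      (φ y' - φ y) ^ 2 ≤ W y' - W y) ∧
    W (2 ^ (k + 1)) - W (2 ^ k) ≤ T ∧
    ∀ y : ℕ, 2 ^ k ≤ y → y ≤ 2 ^ (k + 1) → (φ y - e) ^ 2 ≤ T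

/-- weighted Cauchy-Schwarz -/
lemma wcs {ι : Type*} (s : Finset ι) (c a : ι → ℝ) (hc : ∀ i ∈ s, 0 < c i) (C : ℝ)
    (hC : ∑ i ∈ s, c i ≤ C) : (∑ i ∈ s, a i) ^ 2 ≤ C * ∑ i ∈ s, a i ^ 2 / c i := by
  have h1 : (∑ i ∈ s, a i) ^ 2 ≤ (∑ i ∈ s, c i) * ∑ i ∈ s, a i ^ 2 / c i := by
    apply sum_sq_le_sum_mul_sum_of_sq_eq_mul
    · intro i hi; exact (hc i hi).le
    · intro i hi; have := hc i hi; positivity
    · intro i hi; have := hc i hi; field_simp
  refine h1.trans (mul_le_mul_of_nonneg_right hC (sum_nonneg fun i hi => ?_))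
  have := hc i hi; positivity

lemma Ctl.sum {ι : Type*} (s : Finset ι) {k : ℕ} {φ : ι → ℕ → ℝ} {e T : ι → ℝ}
    (h : ∀ i ∈ s, Ctl k (φ i) (e i) (T i)) (c : ι → ℝ) (hc : ∀ i ∈ s, 0 < c i) (C : ℝ)
    (hC : ∑ i ∈ s, c i ≤ C) :
    Ctl k (fun y => ∑ i ∈ s, φ i y) (∑ i ∈ s, e i) (C * ∑ i ∈ s, T i / c i) := by
  classical
  have hC0 : 0 ≤ C := (sum_nonneg fun i hi => (hc i hi).le).trans hC
  choose! W hW using h
  refine ⟨fun y => C * ∑ i ∈ s, W i y / c i, ?_, ?_, ?_⟩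
  · intro y y' h1 h2 h3
    have h4 : (∑ i ∈ s, φ i y') - ∑ i ∈ s, φ i y = ∑ i ∈ s, (φ i y' - φ i y) := by
      rw [sum_sub_distrib]
    rw [h4]
    refine (wcs s c _ hc C hC).trans ?_
    rw [← mul_sub, ← sum_sub_distrib]
    apply mul_le_mul_of_nonneg_left _ hC0
    apply sum_le_sum
    intro i hi
    rw [← sub_div]
    exact div_le_div_of_nonneg_right ((hW i hi).1 y y' h1 h2 h3) (hc i hi).le
  · rw [← mul_sub, ← sum_sub_distrib]
    apply mul_le_mul_of_nonneg_left _ hC0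
    apply sum_le_sum
    intro i hi
    rw [← sub_div]
    exact div_le_div_of_nonneg_right (hW i hi).2.1 (hc i hi).le
  · intro y h1 h2
    have h4 : (∑ i ∈ s, φ i y) - ∑ i ∈ s, e i = ∑ i ∈ s, (φ i y - e i) := by
      rw [sum_sub_distrib]
    rw [h4]
    refine (wcs s c _ hc C hC).trans ?_
    apply mul_le_mul_of_nonneg_left _ hC0
    apply sum_le_sum
    intro i hi
    exact div_le_div_of_nonneg_right ((hW i hi).2.2 y h1 h2) (hc i hi).le

end Pool.Agent.J6H52.Jump
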