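import Pool.Agent.J6H52.Jump.Basic

/-! Coarse part: functions which are constant on the dyadic intervals of length `2 ^ l`. -/

set_option autoImplicit false

open Finset

namespace Pool.Agent.J6H52.Jump

lemma next_block {l : ℕ} {u : ℕ → ℝ} (hC : Cst l u) (n m : ℕ) (hm : m ≤ 2 ^ l) :
    S u (n + m) - S u n =
      m * u n + (u (n + 2 ^ l) - u n) * ((n % 2 ^ l + m - 2 ^ l : ℕ) : ℝ) := by
  have hq : 0 < 2 ^ l := by positivity
  have e1 := Nat.div_add_mod n (2 ^ l)
  have e2 := Nat.mod_lt n hq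
  induction m with
  | zero =>
      have : n % 2 ^ l + 0 - 2 ^ l = 0 := by omega
      rw [this]; simp
  | succ m ih =>
      have h1 := ih (by omega)
      rw [← add_assoc, S_succ]
      rcases lt_or_ge (n % 2 ^ l + m) (2 ^ l) with h | h
      · have h2 : u (n + m) = u n := by
          apply hC
          have h3 : n + m = 2 ^ l * (n / 2 ^ l) + (n % 2 ^ l + m) := by omega
          rw [h3, Nat.mul_add_div hq, Nat.div_eq_of_lt h, add_zero]
        have h4 : n % 2 ^ l + (m + 1) - 2 ^ l = 0 := by omega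
        have h5 : n % 2 ^ l + m - 2 ^ l = 0 := by omega
        rw [h5] at h1
        rw [h4, h2]
        push_cast at h1 ⊢
        linarith
      · have h2 : u (n + m) = u (n + 2 ^ l) := by
          apply hC
          have h3 : n + m = 2 ^ l * (n / 2 ^ l) + (2 ^ l + (n % 2 ^ l + m - 2 ^ l)) := by omega
          rw [h3, Nat.mul_add_div hq, Nat.add_div_right _ hq, Nat.add_div_left _ hq,
            Nat.div_eq_of_lt (show n % 2 ^ l + m - 2 ^ l < 2 ^ l by omega)]
        have h4 : n % 2 ^ l + (m + 1) - 2 ^ l = (n % 2 ^ l + m - 2 ^ l) + 1 := by omega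
        rw [h4, h2]
        push_cast at h1 ⊢
        linarith

/-- proportion of `[n, n + m)` in the next block -/
noncomputable def th (l n m : ℕ) : ℝ := ((n % 2 ^ l + m - 2 ^ l : ℕ) : ℝ) / m

lemma th_nonneg (l n m : ℕ) : 0 ≤ th l n m := by unfold th; positivity

lemma th_le_one (l n m : ℕ) : th l n m ≤ 1 := by
  unfold th
  have e2 := Nat.mod_lt n (show 0 < 2 ^ l by positivity)
  apply div_le_one_of_le₀ _ (Nat.cast_nonneg m)
  exact_mod_cast (show n % 2 ^ l + m - 2 ^ l ≤ m by omega)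

lemma th_mono (l n : ℕ) {m m' : ℕ} (hm : 0 < m) (h : m ≤ m') : th l n m ≤ th l n m' := by
  unfold th
  have e2 := Nat.mod_lt n (show 0 < 2 ^ l by positivity)
  rcases le_total (n % 2 ^ l + m) (2 ^ l) with h1 | h1
  · have : n % 2 ^ l + m - 2 ^ l = 0 := by omega
    rw [this]; simp; positivity
  · have hm1 : (0 : ℝ) < m := by exact_mod_cast hm
    have hm2 : (m : ℝ) ≤ m' := by exact_mod_cast h
    have e3 : ((n % 2 ^ l : ℕ) : ℝ) ≤ 2 ^ l := by exact_mod_cast e2.le
    rw [div_le_div_iff₀ hm1 (by linarith), Nat.cast_sub h1, Nat.cast_sub (by omega)]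
    push_cast
    nlinarith

lemma th_zero {l n m : ℕ} (h : n % 2 ^ l + m ≤ 2 ^ l) : th l n m = 0 := by
  unfold th
  have : n % 2 ^ l + m - 2 ^ l = 0 := by omega
  rw [this]; simp

/-- The coarse part. -/
lemma coarse {l k K : ℕ} {u : ℕ → ℝ} (hC : Cst l u) (hkl : k + 1 ≤ l) (hlK : l ≤ K)
    (hsupp : ∀ n, 2 ^ K ≤ n → u n = 0) :
    ∃ P : ℕ → ℝ, (∀ n, Ctl k (A u n) (E (k + 1) u n) (P n)) ∧ (∀ n, 0 ≤ P n) ∧
      ∑ n ∈ range (2 ^ K), P n ≤ 8 * 2 ^ k / 2 ^ l * ∑ n ∈ range (2 ^ K), u n ^ 2 := by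
  have hq : 0 < 2 ^ l := by positivity
  have hkl2 : 2 ^ (k + 1) ≤ 2 ^ l := Nat.pow_le_pow_right (by norm_num) hkl
  have hkp : 0 < 2 ^ k := by positivity
  refine ⟨fun n => (u (n + 2 ^ l) - u n) ^ 2 * (if 2 ^ l < n % 2 ^ l + 2 ^ (k + 1) then 1 else 0),
    ?_, ?_, ?_⟩
  · intro n
    set d : ℝ := u (n + 2 ^ l) - u n with hd
    have hA : ∀ y : ℕ, 2 ^ k ≤ y → y ≤ 2 ^ (k + 1) → A u n y = u n + d * th l n y := by
      intro y h1 h2
      have hy : (0 : ℝ) < y := by exact_mod_cast (by omega : 0 < y)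
      rw [A, next_block hC n y (by omega), th, ← hd]
      field_simp
    have hth : th l n (2 ^ (k + 1)) ≤ (if 2 ^ l < n % 2 ^ l + 2 ^ (k + 1) then (1 : ℝ) else 0) := by
      split_ifs with h
      · exact th_le_one _ _ _
      · rw [th_zero (by omega)]
    refine ⟨fun y => d ^ 2 * th l n y, ?_, ?_, ?_⟩
    · intro y y' h1 h2 h3
      rw [hA y h1 (by omega), hA y' (by omega) h3]
      have h4 := th_mono l n (show 0 < y by omega) h2
      have h5 := th_nonneg l n y
      have h6 := th_le_one l n y'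
      have h7 : (th l n y' - th l n y) ^ 2 ≤ th l n y' - th l n y := by nlinarith
      calc (u n + d * th l n y' - (u n + d * th l n y)) ^ 2
          = d ^ 2 * (th l n y' - th l n y) ^ 2 := by ring
        _ ≤ d ^ 2 * (th l n y' - th l n y) := by gcongr
        _ = _ := by ring
    · have h5 := th_nonneg l n (2 ^ k)
      have h6 : d ^ 2 * th l n (2 ^ (k + 1)) ≤
        d ^ 2 * (if 2 ^ l < n % 2 ^ l + 2 ^ (k + 1) then (1 : ℝ) else 0) := by gcongr
      have h7 : 0 ≤ d ^ 2 * th l n (2 ^ k) := by positivity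
      linarith
    · intro y h1 h2
      rw [hA y h1 h2, hC.E_eq hkl]
      have h4 := th_mono l n (show 0 < y by omega) h2
      have h5 := th_nonneg l n y
      have h6 := th_le_one l n y
      calc (u n + d * th l n y - u n) ^ 2 = d ^ 2 * (th l n y) ^ 2 := by ring
        _ ≤ d ^ 2 * (if 2 ^ l < n % 2 ^ l + 2 ^ (k + 1) then (1 : ℝ) else 0) := by
            apply mul_le_mul_of_nonneg_left _ (sq_nonneg _)
            nlinarith
  · intro n
    beta_reduce
    split_ifs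
    · positivity
    · simp
  · obtain ⟨a, ha⟩ : ∃ a, 2 ^ K = 2 ^ l * a := ⟨2 ^ (K - l), by
      rw [← pow_add]; congr 1; omega⟩
    have h1 : ∑ n ∈ range (2 ^ K), (u (n + 2 ^ l) - u n) ^ 2 *
        (if 2 ^ l < n % 2 ^ l + 2 ^ (k + 1) then (1 : ℝ) else 0) ≤
        2 * 2 ^ k / 2 ^ l * ∑ n ∈ range (2 ^ K), (u (n + 2 ^ l) - u n) ^ 2 := by
      rw [ha, sum_blocks, sum_blocks, mul_sum]
      apply sum_le_sum
      intro i _
      have h0 : ∀ r < 2 ^ l, u (2 ^ l * i + r + 2 ^ l) - u (2 ^ l * i + r) =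
          u (2 ^ l * i + 2 ^ l) - u (2 ^ l * i) := by
        intro r hr
        congr 1
        · apply hC
          rw [Nat.add_div_right _ hq, Nat.add_div_right _ hq, Nat.mul_add_div hq,
            Nat.div_eq_of_lt hr, Nat.mul_div_cancel_left _ hq, add_zero]
        · apply hC
          rw [Nat.mul_add_div hq, Nat.div_eq_of_lt hr, Nat.mul_div_cancel_left _ hq, add_zero]
      have h2 : ∀ r ∈ range (2 ^ l), (u (2 ^ l * i + r + 2 ^ l) - u (2 ^ l * i + r)) ^ 2 *
          (if 2 ^ l < (2 ^ l * i + r) % 2 ^ l + 2 ^ (k + 1) then (1 : ℝ) else 0) =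
          (u (2 ^ l * i + 2 ^ l) - u (2 ^ l * i)) ^ 2 *
            (if 2 ^ l < r + 2 ^ (k + 1) then (1 : ℝ) else 0) := by
        intro r hr
        rw [h0 r (mem_range.1 hr), Nat.mul_add_mod, Nat.mod_eq_of_lt (mem_range.1 hr)]
      have h3 : ∀ r ∈ range (2 ^ l), (u (2 ^ l * i + r + 2 ^ l) - u (2 ^ l * i + r)) ^ 2 =
          (u (2 ^ l * i + 2 ^ l) - u (2 ^ l * i)) ^ 2 := by
        intro r hr
        rw [h0 r (mem_range.1 hr)]
      rw [sum_congr rfl h2, sum_congr rfl h3, ← mul_sum, sum_const, card_range, nsmul_eq_mul]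
      have h4 : ∑ r ∈ range (2 ^ l), (if 2 ^ l < r + 2 ^ (k + 1) then (1 : ℝ) else 0) ≤
          2 * 2 ^ k := by
        rw [← sum_filter, sum_const, nsmul_eq_mul, mul_one]
        have h5 : ((range (2 ^ l)).filter (fun r => 2 ^ l < r + 2 ^ (k + 1))).card ≤
            2 ^ (k + 1) := by
          have h6 : (range (2 ^ l)).filter (fun r => 2 ^ l < r + 2 ^ (k + 1)) ⊆
              Ico (2 ^ l - 2 ^ (k + 1)) (2 ^ l) := by
            intro r hr
            rw [mem_filter, mem_range] at hr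
            rw [mem_Ico]; omega
          refine (card_le_card h6).trans ?_
          rw [Nat.card_Ico]; omega
        calc _ ≤ ((2 ^ (k + 1) : ℕ) : ℝ) := by exact_mod_cast h5
          _ = _ := by push_cast; rw [pow_succ]; ring
      push_cast
      calc (u (2 ^ l * i + 2 ^ l) - u (2 ^ l * i)) ^ 2 *
            ∑ r ∈ range (2 ^ l), (if 2 ^ l < r + 2 ^ (k + 1) then (1 : ℝ) else 0)
          ≤ (u (2 ^ l * i + 2 ^ l) - u (2 ^ l * i)) ^ 2 * (2 * 2 ^ k) := by gcongr
        _ = _ := by field_simp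
    have h2 : ∑ n ∈ range (2 ^ K), (u (n + 2 ^ l) - u n) ^ 2 ≤
        4 * ∑ n ∈ range (2 ^ K), u n ^ 2 := by
      have h3 : ∑ n ∈ range (2 ^ K), u (n + 2 ^ l) ^ 2 ≤ ∑ n ∈ range (2 ^ K), u n ^ 2 := by
        have h4 := sum_range_add_sub_sum_range (fun n => u n ^ 2) (2 ^ l) (2 ^ K)
        have h5 : ∑ n ∈ range (2 ^ l + 2 ^ K), u n ^ 2 = ∑ n ∈ range (2 ^ K), u n ^ 2 := by
          rw [add_comm, sum_range_add, sum_eq_zero (s := range (2 ^ l)), add_zero]
          intro x _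
          rw [hsupp _ (Nat.le_add_right _ _)]; norm_num
        have h6 : 0 ≤ ∑ n ∈ range (2 ^ l), u n ^ 2 := sum_nonneg fun _ _ => sq_nonneg _
        rw [h5] at h4
        calc ∑ n ∈ range (2 ^ K), u (n + 2 ^ l) ^ 2
            = ∑ n ∈ range (2 ^ K), u (2 ^ l + n) ^ 2 := by
              apply sum_congr rfl; intro n _; rw [add_comm]
          _ ≤ _ := by linarith
      calc ∑ n ∈ range (2 ^ K), (u (n + 2 ^ l) - u n) ^ 2
          ≤ ∑ n ∈ range (2 ^ K), (2 * u (n + 2 ^ l) ^ 2 + 2 * u n ^ 2) := by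
            apply sum_le_sum; intro n _
            nlinarith [sq_nonneg (u (n + 2 ^ l) + u n)]
        _ = 2 * ∑ n ∈ range (2 ^ K), u (n + 2 ^ l) ^ 2 + 2 * ∑ n ∈ range (2 ^ K), u n ^ 2 := by
            rw [sum_add_distrib, mul_sum, mul_sum]
        _ ≤ _ := by linarith
    calc _ ≤ _ := h1
      _ ≤ 2 * 2 ^ k / 2 ^ l * (4 * ∑ n ∈ range (2 ^ K), u n ^ 2) := by gcongr
      _ = _ := by ring

end Pool.Agent.J6H52.Jump
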