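import Pool.Agent.J6H52.Jump.Mart

/-! Averages over real lengths and the jump inequality. -/

set_option autoImplicit false

open Finset

namespace Pool.Agent.J6H52.Jump

/-- control for real lengths -/
def CtlR (k : ℕ) (φ : ℝ → ℝ) (e T : ℝ) : Prop :=
  ∃ W : ℝ → ℝ, (∀ y y' : ℝ, 2 ^ k ≤ y → y ≤ y' → y' ≤ 2 ^ (k + 1) →
      (φ y' - φ y) ^ 2 ≤ W y' - W y) ∧
    W (2 ^ (k + 1)) - W (2 ^ k) ≤ T ∧
    ∀ y : ℝ, 2 ^ k ≤ y → y ≤ 2 ^ (k + 1) → (φ y - e) ^ 2 ≤ T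

/-- average over a real length -/
noncomputable def AR (f : ℕ → ℝ) (n : ℕ) (y : ℝ) : ℝ := (S f (n + ⌊y⌋₊) - S f n) / y

lemma rho {y y' : ℝ} (hy : 1 ≤ y) (h : y ≤ y') :
    ((⌊y'⌋₊ : ℝ) / y' - (⌊y⌋₊ : ℝ) / y) ^ 2 ≤
      2 * ((1 / (⌊y⌋₊ : ℝ) - 1 / (⌊y'⌋₊ : ℝ)) + (1 / y - 1 / y')) := by
  have hy0 : 0 < y := by linarith
  have hy0' : 0 < y' := by linarith
  have hm : 1 ≤ ⌊y⌋₊ := Nat.le_floor (by push_cast; exact hy)
  have hmm : ⌊y⌋₊ ≤ ⌊y'⌋₊ := Nat.floor_mono h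
  have hmr : (1 : ℝ) ≤ (⌊y⌋₊ : ℝ) := by exact_mod_cast hm
  have f1 := Nat.floor_le hy0.le
  have f2 := Nat.lt_floor_add_one y
  have f3 := Nat.floor_le hy0'.le
  have f4 := Nat.lt_floor_add_one y'
  have hd : 0 ≤ 1 / y - 1 / y' := sub_nonneg.2 (one_div_le_one_div_of_le hy0 h)
  rcases Nat.eq_or_lt_of_le hmm with he | hl
  · rw [← he] at f3 f4 ⊢
    set m : ℝ := (⌊y⌋₊ : ℝ) with hmdef
    have h1 : 1 / y - 1 / y' ≤ 1 / (m * (m + 1)) := by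
      have h2 : 1 / y ≤ 1 / m := one_div_le_one_div_of_le (by linarith) f1
      have h3 : 1 / (m + 1) ≤ 1 / y' := one_div_le_one_div_of_le (by linarith) f4.le
      have h4 : 1 / m - 1 / (m + 1) = 1 / (m * (m + 1)) := by field_simp; ring
      linarith
    have h5 : (m / y' - m / y) ^ 2 = m ^ 2 * ((1 / y - 1 / y') * (1 / y - 1 / y')) := by ring
    rw [h5, sub_self, zero_add]
    have h6 : m ^ 2 * ((1 / y - 1 / y') * (1 / y - 1 / y')) ≤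
        m ^ 2 * (1 / (m * (m + 1)) * (1 / y - 1 / y')) := by gcongr
    have h7 : m ^ 2 * (1 / (m * (m + 1))) ≤ 1 := by
      rw [mul_one_div, div_le_one (by positivity)]; nlinarith
    calc _ ≤ _ := h6
      _ = m ^ 2 * (1 / (m * (m + 1))) * (1 / y - 1 / y') := by ring
      _ ≤ 1 * (1 / y - 1 / y') := by gcongr
      _ ≤ _ := by linarith
  · have hl' : (⌊y⌋₊ : ℝ) + 1 ≤ (⌊y'⌋₊ : ℝ) := by exact_mod_cast hl
    set m : ℝ := (⌊y⌋₊ : ℝ) with hmdef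
    set m' : ℝ := (⌊y'⌋₊ : ℝ) with hmdef'
    have a1 : m / y ≤ 1 := by rw [div_le_one hy0]; exact f1
    have a2 : m' / y' ≤ 1 := by rw [div_le_one hy0']; exact f3
    have a3 : 1 - 1 / m ≤ m / y := by
      have : 1 / y ≤ 1 / m := one_div_le_one_div_of_le (by linarith) f1
      have h2 : 1 - 1 / y ≤ m / y := by
        rw [← sub_nonneg]
        have : m / y - (1 - 1 / y) = (m + 1 - y) / y := by field_simp; ring
        rw [this]
        apply div_nonneg _ hy0.le; linarith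
      linarith
    have a4 : 1 - 1 / m ≤ m' / y' := by
      have : 1 / y' ≤ 1 / m := one_div_le_one_div_of_le (by linarith) (by linarith)
      have h2 : 1 - 1 / y' ≤ m' / y' := by
        rw [← sub_nonneg]
        have : m' / y' - (1 - 1 / y') = (m' + 1 - y') / y' := by field_simp; ring
        rw [this]
        apply div_nonneg _ hy0'.le; linarith
      linarith
    have a5 : (m' / y' - m / y) ^ 2 ≤ (1 / m) ^ 2 := by
      apply sq_le_sq'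
      · linarith
      · linarith
    have a6 : 1 / m' ≤ 1 / (m + 1) := one_div_le_one_div_of_le (by linarith) hl'
    have a7 : (1 / m) ^ 2 ≤ 2 * (1 / m - 1 / (m + 1)) := by
      have h4 : 1 / m - 1 / (m + 1) = 1 / (m * (m + 1)) := by field_simp; ring
      rw [h4, div_pow, one_pow, mul_one_div, div_le_div_iff₀ (by positivity) (by positivity)]
      nlinarith
    linarith

lemma Ctl.toReal {k n : ℕ} {f : ℕ → ℝ} {e T : ℝ} (hT : 0 ≤ T) (h : Ctl k (A f n) e T) :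
    CtlR k (AR f n) e (10 * T + 8 * e ^ 2 / 2 ^ k) := by
  obtain ⟨W, h1, h2, h3⟩ := h
  have hk0 : (1 : ℝ) ≤ 2 ^ k := one_le_pow₀ (by norm_num)
  have key : ∀ y : ℝ, 2 ^ k ≤ y → y ≤ 2 ^ (k + 1) → 2 ^ k ≤ ⌊y⌋₊ ∧ ⌊y⌋₊ ≤ 2 ^ (k + 1) := by
    intro y hy1 hy2
    constructor
    · apply Nat.le_floor; push_cast; exact hy1
    · have : (⌊y⌋₊ : ℝ) ≤ ((2 ^ (k + 1) : ℕ) : ℝ) := by
        push_cast; exact (Nat.floor_le (by linarith)).trans hy2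
      exact_mod_cast this
  have hAR : ∀ y : ℝ, 1 ≤ y → AR f n y = A f n ⌊y⌋₊ * ((⌊y⌋₊ : ℝ) / y) := by
    intro y hy
    have hm : (⌊y⌋₊ : ℝ) ≠ 0 := by
      have : 1 ≤ ⌊y⌋₊ := Nat.le_floor (by push_cast; exact hy)
      positivity
    have hy0 : y ≠ 0 := by linarith
    rw [AR, A]; field_simp
  set B : ℝ := 2 * T + 2 * e ^ 2 with hB
  have hB0 : 0 ≤ B := by positivity
  have hval : ∀ m : ℕ, 2 ^ k ≤ m → m ≤ 2 ^ (k + 1) → A f n m ^ 2 ≤ B := by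
    intro m hm1 hm2
    have := h3 m hm1 hm2
    nlinarith [sq_nonneg (A f n m - 2 * e)]
  refine ⟨fun y => 2 * W ⌊y⌋₊ - 4 * B * (1 / (⌊y⌋₊ : ℝ) + 1 / y), ?_, ?_, ?_⟩
  · intro y y' hy1 hy2 hy3
    obtain ⟨m1, m2⟩ := key y hy1 (hy2.trans hy3)
    obtain ⟨m3, m4⟩ := key y' (hy1.trans hy2) hy3
    have hy : 1 ≤ y := hk0.trans hy1
    have hy' : 1 ≤ y' := hy.trans hy2
    rw [hAR y hy, hAR y' hy']
    have e1 := h1 ⌊y⌋₊ ⌊y'⌋₊ m1 (Nat.floor_mono hy2) m4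
    have e2 := rho hy hy2
    have e3 := hval ⌊y⌋₊ m1 m2
    set p := (⌊y'⌋₊ : ℝ) / y' with hp
    set q := (⌊y⌋₊ : ℝ) / y with hq
    have p0 : 0 ≤ p := by positivity
    have p1 : p ≤ 1 := by
      rw [hp, div_le_one (by linarith)]; exact Nat.floor_le (by linarith)
    have e4 : (A f n ⌊y'⌋₊ * p - A f n ⌊y⌋₊ * q) ^ 2 ≤
        2 * (p ^ 2 * (A f n ⌊y'⌋₊ - A f n ⌊y⌋₊) ^ 2) + 2 * (A f n ⌊y⌋₊ ^ 2 * (p - q) ^ 2) := by
      nlinarith [sq_nonneg (p * (A f n ⌊y'⌋₊ - A f n ⌊y⌋₊) - A f n ⌊y⌋₊ * (p - q))]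
    have e5 : p ^ 2 * (A f n ⌊y'⌋₊ - A f n ⌊y⌋₊) ^ 2 ≤ W ⌊y'⌋₊ - W ⌊y⌋₊ := by
      have : p ^ 2 ≤ 1 := pow_le_one₀ p0 p1
      calc _ ≤ 1 * (A f n ⌊y'⌋₊ - A f n ⌊y⌋₊) ^ 2 := by gcongr
        _ ≤ _ := by linarith
    have e6 : A f n ⌊y⌋₊ ^ 2 * (p - q) ^ 2 ≤
        B * (2 * ((1 / (⌊y⌋₊ : ℝ) - 1 / (⌊y'⌋₊ : ℝ)) + (1 / y - 1 / y'))) := by gcongr
    calc _ ≤ _ := e4
      _ ≤ 2 * (W ⌊y'⌋₊ - W ⌊y⌋₊) +
        2 * (B * (2 * ((1 / (⌊y⌋₊ : ℝ) - 1 / (⌊y'⌋₊ : ℝ)) + (1 / y - 1 / y')))) := by linarith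
      _ = _ := by ring
  · have g1 : ⌊(2 : ℝ) ^ (k + 1)⌋₊ = 2 ^ (k + 1) := by
      have : (2 : ℝ) ^ (k + 1) = ((2 ^ (k + 1) : ℕ) : ℝ) := by push_cast; rfl
      rw [this, Nat.floor_natCast]
    have g2 : ⌊(2 : ℝ) ^ k⌋₊ = 2 ^ k := by
      have : (2 : ℝ) ^ k = ((2 ^ k : ℕ) : ℝ) := by push_cast; rfl
      rw [this, Nat.floor_natCast]
    simp only [g1, g2]
    push_cast
    have e1 : 2 * W (2 ^ (k + 1)) - 4 * B * (1 / 2 ^ (k + 1) + 1 / 2 ^ (k + 1)) -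
        (2 * W (2 ^ k) - 4 * B * (1 / 2 ^ k + 1 / 2 ^ k)) =
        2 * (W (2 ^ (k + 1)) - W (2 ^ k)) + 4 * (B / 2 ^ k) := by
      rw [pow_succ (2 : ℝ) k]; field_simp; ring
    rw [e1]
    have e2 : B / 2 ^ k ≤ 2 * T + 2 * e ^ 2 / 2 ^ k := by
      rw [hB, add_div]
      have : 2 * T / 2 ^ k ≤ 2 * T := div_le_self (by positivity) hk0
      linarith
    have e3 : 8 * e ^ 2 / 2 ^ k = 4 * (2 * e ^ 2 / 2 ^ k) := by ring
    rw [e3]
    linarith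
  · intro y hy1 hy2
    obtain ⟨m1, m2⟩ := key y hy1 hy2
    have hy : 1 ≤ y := hk0.trans hy1
    rw [hAR y hy]
    have e1 := h3 ⌊y⌋₊ m1 m2
    set q := (⌊y⌋₊ : ℝ) / y with hq
    have q0 : 0 ≤ q := by positivity
    have q1 : q ≤ 1 := by
      rw [hq, div_le_one (by linarith)]; exact Nat.floor_le (by linarith)
    have q2 : 1 - q ≤ 1 / 2 ^ k := by
      have f2 := Nat.lt_floor_add_one y
      have : 1 - q = (y - ⌊y⌋₊) / y := by rw [hq]; field_simp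
      rw [this]
      apply div_le_div₀ (by norm_num) (by linarith) (by positivity) hy1
    have e2 : (A f n ⌊y⌋₊ * q - e) ^ 2 ≤
        2 * (q ^ 2 * (A f n ⌊y⌋₊ - e) ^ 2) + 2 * ((1 - q) ^ 2 * e ^ 2) := by
      nlinarith [sq_nonneg (q * (A f n ⌊y⌋₊ - e) + (1 - q) * e)]
    have e3 : q ^ 2 * (A f n ⌊y⌋₊ - e) ^ 2 ≤ T := by
      have : q ^ 2 ≤ 1 := pow_le_one₀ q0 q1
      calc _ ≤ 1 * (A f n ⌊y⌋₊ - e) ^ 2 := by gcongr
        _ ≤ _ := by linarith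
    have e4 : (1 - q) ^ 2 * e ^ 2 ≤ e ^ 2 / 2 ^ k := by
      have q3 : 0 ≤ 1 - q := by linarith
      have : (1 - q) ^ 2 ≤ 1 / 2 ^ k := by
        calc (1 - q) ^ 2 = (1 - q) * (1 - q) := sq _
          _ ≤ (1 / 2 ^ k) * 1 := by gcongr; linarith
          _ = _ := mul_one _
      calc _ ≤ 1 / 2 ^ k * e ^ 2 := by gcongr
        _ = _ := by ring
    have e5 : 0 ≤ e ^ 2 / 2 ^ k := by positivity
    have e6 : 8 * e ^ 2 / 2 ^ k = 8 * (e ^ 2 / 2 ^ k) := by ring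
    rw [e6]
    linarith

/-- `F` has `J` jumps larger than `ε` on `[a, b]`, over intervals without common interior
points. -/
def Jumps (F : ℝ → ℝ) (ε a b : ℝ) (J : ℕ) : Prop :=
  ∃ s t : ℕ → ℝ, (∀ i < J, a ≤ s i ∧ s i < t i ∧ t i ≤ b ∧ ε < |F (t i) - F (s i)|) ∧
    ∀ i, i + 1 < J → t i ≤ s (i + 1)

lemma Jumps.le {F G : ℝ → ℝ} {ε a b : ℝ} {J : ℕ} (h : Jumps F ε a b J) (hab : a ≤ b)
    (hG : ∀ y y', a ≤ y → y ≤ y' → y' ≤ b → G y ≤ G y')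
    (hG2 : ∀ y y', a ≤ y → y ≤ y' → y' ≤ b → ε < |F y' - F y| → G y + 1 ≤ G y') :
    (J : ℝ) ≤ G b - G a := by
  obtain ⟨s, t, h1, h2⟩ := h
  rcases Nat.eq_zero_or_pos J with rfl | hJ
  · have := hG a b le_rfl hab le_rfl
    push_cast; linarith
  have key : ∀ i < J, G a + (i + 1 : ℕ) ≤ G (t i) := by
    intro i
    induction i with
    | zero =>
        intro hi
        obtain ⟨a1, a2, a3, a4⟩ := h1 0 hi
        have e1 := hG a (s 0) le_rfl a1 (a2.le.trans a3)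
        have e2 := hG2 (s 0) (t 0) a1 a2.le a3 a4
        push_cast; linarith
    | succ i ih =>
        intro hi
        have e0 := ih (by omega)
        obtain ⟨b1, b2, b3, _⟩ := h1 i (by omega)
        obtain ⟨a1, a2, a3, a4⟩ := h1 (i + 1) hi
        have e1 := hG (t i) (s (i + 1)) (b1.trans b2.le) (h2 i hi) (a2.le.trans a3)
        have e2 := hG2 (s (i + 1)) (t (i + 1)) a1 a2.le a3 a4
        push_cast at e0 ⊢; linarith
  have e1 := key (J - 1) (by omega)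
  obtain ⟨a1, a2, a3, _⟩ := h1 (J - 1) (by omega)
  have e2 := hG (t (J - 1)) b (a1.trans a2.le) a3 le_rfl
  rw [Nat.sub_add_cancel hJ] at e1
  linarith

lemma Jumps.mono {F : ℝ → ℝ} {ε a b a' b' : ℝ} {J : ℕ} (h : Jumps F ε a b J) (ha : a' ≤ a)
    (hb : b ≤ b') : Jumps F ε a' b' J := by
  obtain ⟨s, t, h1, h2⟩ := h
  exact ⟨s, t, fun i hi => ⟨ha.trans (h1 i hi).1, (h1 i hi).2.1, (h1 i hi).2.2.1.trans hb,
    (h1 i hi).2.2.2⟩, h2⟩

/-- the index of the dyadic block of a length -/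
noncomputable def lv (k0 : ℕ) (y : ℝ) : ℕ := Nat.log 2 ⌊y⌋₊ - k0

lemma lv_spec {k0 L : ℕ} {y : ℝ} (h1 : 2 ^ k0 ≤ y) (h2 : y < 2 ^ (k0 + L)) :
    lv k0 y < L ∧ (2 : ℝ) ^ (k0 + lv k0 y) ≤ y ∧ y ≤ 2 ^ (k0 + lv k0 y + 1) := by
  have hy0 : 0 ≤ y := le_trans (by positivity) h1
  have m1 : 2 ^ k0 ≤ ⌊y⌋₊ := by apply Nat.le_floor; push_cast; exact h1
  have m0 : ⌊y⌋₊ ≠ 0 := by have : 0 < 2 ^ k0 := by positivity
                           omega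
  have m2 : ⌊y⌋₊ < 2 ^ (k0 + L) := by
    rw [Nat.floor_lt hy0]; push_cast; exact h2
  have e1 : k0 ≤ Nat.log 2 ⌊y⌋₊ := Nat.le_log_of_pow_le (by norm_num) m1
  have e2 : Nat.log 2 ⌊y⌋₊ < k0 + L := Nat.log_lt_of_lt_pow m0 m2
  have e3 : k0 + lv k0 y = Nat.log 2 ⌊y⌋₊ := by unfold lv; omega
  rw [e3]
  refine ⟨by unfold lv; omega, ?_, ?_⟩
  · have := Nat.pow_log_le_self 2 m0
    have h3 : ((2 ^ Nat.log 2 ⌊y⌋₊ : ℕ) : ℝ) ≤ (⌊y⌋₊ : ℝ) := by exact_mod_cast this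
    push_cast at h3
    exact h3.trans (Nat.floor_le hy0)
  · have := Nat.lt_pow_succ_log_self (b := 2) (by norm_num) ⌊y⌋₊
    have h3 : (⌊y⌋₊ : ℝ) + 1 ≤ ((2 ^ (Nat.log 2 ⌊y⌋₊ + 1) : ℕ) : ℝ) := by exact_mod_cast this
    push_cast at h3
    exact (Nat.lt_floor_add_one y).le.trans h3

lemma lv_mono (k0 : ℕ) {y y' : ℝ} (h : y ≤ y') : lv k0 y ≤ lv k0 y' := by
  unfold lv
  have := Nat.log_mono_right (b := 2) (Nat.floor_mono h)
  omega

/-- The number of jumps is bounded by the variation within the blocks and the number of jumps of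
the reference values. -/
lemma jumps_bound {k0 L : ℕ} {φ : ℝ → ℝ} {e T c : ℕ → ℝ} {C ε : ℝ} (hε : 0 < ε)
    (hC : ∀ i < L, CtlR (k0 + i) φ (e i) (T i)) (hT : ∀ i, 0 ≤ T i)
    (hc0 : ∀ i, 0 ≤ c i) (hcC : ∀ i, c i ≤ C) (hcm : ∀ i i', i ≤ i' → i' < L → c i ≤ c i')
    (hcj : ∀ i i', i ≤ i' → i' < L → ε / 3 < |e i' - e i| → c i + 1 ≤ c i')
    {b : ℝ} (hb1 : 2 ^ k0 ≤ b) (hb2 : b < 2 ^ (k0 + L)) {J : ℕ} (hJ : Jumps φ ε (2 ^ k0) b J) :
    (J : ℝ) ≤ 27 / ε ^ 2 * ∑ i ∈ range L, T i + C := by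
  classical
  choose! W hW using hC
  set G : ℝ → ℝ := fun y => 9 / ε ^ 2 * (∑ i ∈ range (lv k0 y), 3 * T i + T (lv k0 y) +
    (W (lv k0 y) y - W (lv k0 y) (2 ^ (k0 + lv k0 y)))) + c (lv k0 y) with hG
  have hκ : 0 < 9 / ε ^ 2 := by positivity
  -- the part of the block
  have hw : ∀ y : ℝ, 2 ^ k0 ≤ y → y ≤ b →
      0 ≤ W (lv k0 y) y - W (lv k0 y) (2 ^ (k0 + lv k0 y)) ∧
      W (lv k0 y) y - W (lv k0 y) (2 ^ (k0 + lv k0 y)) ≤ T (lv k0 y) := by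
    intro y h1 h2
    obtain ⟨a1, a2, a3⟩ := lv_spec h1 (h2.trans_lt hb2)
    obtain ⟨w1, w2, w3⟩ := hW (lv k0 y) a1
    have e1 := (sq_nonneg _).trans (w1 _ y le_rfl a2 a3)
    have e2 := (sq_nonneg _).trans (w1 y _ a2 a3 le_rfl)
    constructor <;> linarith
  have main : ∀ y y' : ℝ, 2 ^ k0 ≤ y → y ≤ y' → y' ≤ b →
      G y ≤ G y' ∧ (ε < |φ y' - φ y| → G y + 1 ≤ G y') := by
    intro y y' h1 h2 h3
    obtain ⟨a1, a2, a3⟩ := lv_spec h1 ((h2.trans h3).trans_lt hb2)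
    obtain ⟨b1, b2, b3⟩ := lv_spec (h1.trans h2) (h3.trans_lt hb2)
    have hl := lv_mono k0 h2
    obtain ⟨v1, v2⟩ := hw y h1 (h2.trans h3)
    obtain ⟨v3, v4⟩ := hw y' (h1.trans h2) h3
    rcases Nat.eq_or_lt_of_le hl with he | hlt
    · obtain ⟨w1, w2, w3⟩ := hW (lv k0 y) a1
      have e1 := w1 y y' a2 h2 (by rw [he]; exact b3)
      have e2 : G y' - G y = 9 / ε ^ 2 * (W (lv k0 y) y' - W (lv k0 y) y) := by
        simp only [hG, ← he]; ring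
      constructor
      · have : 0 ≤ W (lv k0 y) y' - W (lv k0 y) y := (sq_nonneg _).trans e1
        have : 0 ≤ 9 / ε ^ 2 * (W (lv k0 y) y' - W (lv k0 y) y) := by positivity
        linarith
      · intro hj
        have e3 : ε ^ 2 ≤ (φ y' - φ y) ^ 2 := by
          rw [← sq_abs (φ y' - φ y)]; gcongr
        have e4 : 9 / ε ^ 2 * ε ^ 2 ≤ 9 / ε ^ 2 * (W (lv k0 y) y' - W (lv k0 y) y) := by
          apply mul_le_mul_of_nonneg_left _ hκ.le; linarith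
        rw [div_mul_cancel₀ _ (by positivity)] at e4
        linarith
    · have e1 : ∑ i ∈ range (lv k0 y), 3 * T i + 3 * T (lv k0 y) ≤
          ∑ i ∈ range (lv k0 y'), 3 * T i := by
        rw [← sum_range_succ]
        apply sum_le_sum_of_subset_of_nonneg
        · intro i hi; rw [mem_range] at hi ⊢; omega
        · intro i _ _; linarith [hT i]
      have e2 : 9 / ε ^ 2 * (T (lv k0 y) + T (lv k0 y')) + (c (lv k0 y') - c (lv k0 y)) ≤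
          G y' - G y := by
        have e3 : G y' - G y = 9 / ε ^ 2 * ((∑ i ∈ range (lv k0 y'), 3 * T i -
          ∑ i ∈ range (lv k0 y), 3 * T i) + T (lv k0 y') - T (lv k0 y) +
          (W (lv k0 y') y' - W (lv k0 y') (2 ^ (k0 + lv k0 y'))) -
          (W (lv k0 y) y - W (lv k0 y) (2 ^ (k0 + lv k0 y)))) +
          (c (lv k0 y') - c (lv k0 y)) := by simp only [hG]; ring
        rw [e3]
        have e4 : 9 / ε ^ 2 * (T (lv k0 y) + T (lv k0 y')) ≤ 9 / ε ^ 2 *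
          ((∑ i ∈ range (lv k0 y'), 3 * T i -
          ∑ i ∈ range (lv k0 y), 3 * T i) + T (lv k0 y') - T (lv k0 y) +
          (W (lv k0 y') y' - W (lv k0 y') (2 ^ (k0 + lv k0 y'))) -
          (W (lv k0 y) y - W (lv k0 y) (2 ^ (k0 + lv k0 y)))) := by
          apply mul_le_mul_of_nonneg_left _ hκ.le
          linarith
        linarith
      have e5 := hcm _ _ hlt.le b1
      have t1 := hT (lv k0 y)
      have t2 := hT (lv k0 y')
      have t3 : 0 ≤ 9 / ε ^ 2 * T (lv k0 y) := by positivity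
      have t4 : 0 ≤ 9 / ε ^ 2 * T (lv k0 y') := by positivity
      rw [mul_add] at e2
      refine ⟨by linarith, fun hj => ?_⟩
      have big : ∀ x τ : ℝ, x ^ 2 ≤ τ → ε / 3 < |x| → 1 ≤ 9 / ε ^ 2 * τ := by
        intro x τ hx hx2
        have : (ε / 3) ^ 2 ≤ τ := by
          refine le_trans ?_ hx
          rw [← sq_abs x]; gcongr
        calc (1 : ℝ) = 9 / ε ^ 2 * (ε / 3) ^ 2 := by field_simp; norm_num
          _ ≤ _ := by gcongr
      obtain ⟨_, _, w3⟩ := hW (lv k0 y) a1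
      obtain ⟨_, _, w3'⟩ := hW (lv k0 y') b1
      by_cases c1 : ε / 3 < |φ y - e (lv k0 y)|
      · have := big _ _ (w3 y a2 a3) c1
        linarith
      by_cases c2 : ε / 3 < |φ y' - e (lv k0 y')|
      · have := big _ _ (w3' y' b2 b3) c2
        linarith
      have c3 : ε / 3 < |e (lv k0 y') - e (lv k0 y)| := by
        have t := abs_add_three (φ y' - e (lv k0 y')) (e (lv k0 y') - e (lv k0 y))
          (e (lv k0 y) - φ y)
        rw [show φ y' - e (lv k0 y') + (e (lv k0 y') - e (lv k0 y)) + (e (lv k0 y) - φ y) =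
          φ y' - φ y by ring, abs_sub_comm (e (lv k0 y)) (φ y)] at t
        linarith
      have := hcj _ _ hlt.le b1 c3
      linarith
  have h1 := hJ.le hb1 (G := G) (fun y y' a1 a2 a3 => (main y y' a1 a2 a3).1)
    (fun y y' a1 a2 a3 => (main y y' a1 a2 a3).2)
  have h2 : 0 ≤ G (2 ^ k0) := by
    obtain ⟨v1, _⟩ := hw (2 ^ k0) le_rfl hb1
    have : 0 ≤ ∑ i ∈ range (lv k0 (2 ^ k0)), 3 * T i := sum_nonneg fun i _ => by linarith [hT i]
    have t1 := hT (lv k0 (2 ^ k0))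
    have t2 := hc0 (lv k0 (2 ^ k0))
    simp only [hG]
    have : 0 ≤ 9 / ε ^ 2 * (∑ i ∈ range (lv k0 (2 ^ k0)), 3 * T i + T (lv k0 (2 ^ k0)) +
      (W (lv k0 (2 ^ k0)) (2 ^ k0) - W (lv k0 (2 ^ k0)) (2 ^ (k0 + lv k0 (2 ^ k0))))) := by
      apply mul_nonneg hκ.le; linarith
    linarith
  have h3 : G b ≤ 27 / ε ^ 2 * ∑ i ∈ range L, T i + C := by
    obtain ⟨_, v2⟩ := hw b hb1 le_rfl
    obtain ⟨a1, _, _⟩ := lv_spec hb1 hb2
    have e1 : ∑ i ∈ range (lv k0 b), 3 * T i + 3 * T (lv k0 b) ≤ 3 * ∑ i ∈ range L, T i := by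
      rw [← sum_range_succ, mul_sum]
      apply sum_le_sum_of_subset_of_nonneg
      · intro i hi; rw [mem_range] at hi ⊢; omega
      · intro i _ _; linarith [hT i]
    have t1 := hT (lv k0 b)
    have t2 := hcC (lv k0 b)
    simp only [hG]
    have : 9 / ε ^ 2 * (∑ i ∈ range (lv k0 b), 3 * T i + T (lv k0 b) +
      (W (lv k0 b) b - W (lv k0 b) (2 ^ (k0 + lv k0 b)))) ≤
      9 / ε ^ 2 * (3 * ∑ i ∈ range L, T i) := by
      apply mul_le_mul_of_nonneg_left _ hκ.le; linarith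
    have e3 : 9 / ε ^ 2 * (3 * ∑ i ∈ range L, T i) = 27 / ε ^ 2 * ∑ i ∈ range L, T i := by ring
    linarith
  linarith

/-- **The jump inequality** for the averages of a nonnegative function over `[n, n + y)`, real
`y ≥ 2 ^ k0`, in terms of the dyadic averages of length `2 ^ k0`. -/
theorem jump_inequality (k0 L : ℕ) {f : ℕ → ℝ} (hf : ∀ n, 0 ≤ f n)
    (hsupp : ∀ n, 2 ^ (k0 + L) ≤ n → f n = 0) {ε b : ℝ} (hε : 0 < ε) (hb1 : 2 ^ k0 ≤ b)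
    (hb2 : b < 2 ^ (k0 + L)) (J : ℕ → ℕ)
    (hJ : ∀ n ∈ range (2 ^ (k0 + L)), Jumps (AR f n) ε (2 ^ k0) b (J n)) :
    ∑ n ∈ range (2 ^ (k0 + L)), (J n : ℝ) ≤
      1700000 / ε ^ 2 * ∑ n ∈ range (2 ^ (k0 + L)), E k0 f n ^ 2 := by
  obtain ⟨T, h1, h2, h3⟩ := total k0 L hf hsupp
  set N2 := ∑ n ∈ range (2 ^ (k0 + L)), E k0 f n ^ 2 with hN2
  have hN20 : 0 ≤ N2 := sum_nonneg fun _ _ => sq_nonneg _
  have hb : (0 : ℝ) ≤ ε / 6 := by positivity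
  have h4 : ∀ n ∈ range (2 ^ (k0 + L)), (J n : ℝ) ≤ 27 / ε ^ 2 *
      ∑ i ∈ range L, (10 * T i n + 8 * E (k0 + i + 1) f n ^ 2 / 2 ^ (k0 + i)) +
        (st (ev (k0 + L) f n) (ε / 6) L).2 := by
    intro n hn
    have hm := st_mono (ev (k0 + L) f n) (ε / 6)
    refine jumps_bound (k0 := k0) (L := L) (φ := AR f n) (e := fun i => E (k0 + i + 1) f n)
      (T := fun i => 10 * T i n + 8 * E (k0 + i + 1) f n ^ 2 / 2 ^ (k0 + i))
      (c := fun i => ((st (ev (k0 + L) f n) (ε / 6) L).2 : ℝ) -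
        (st (ev (k0 + L) f n) (ε / 6) (L - 1 - i)).2) hε
      (fun i hi => (h1 i hi n).toReal (h2 i n))
      (fun i => by have := h2 i n; positivity) ?_ ?_ ?_ ?_ hb1 hb2 (hJ n hn)
    · intro i
      have : (st (ev (k0 + L) f n) (ε / 6) (L - 1 - i)).2 ≤
        (st (ev (k0 + L) f n) (ε / 6) L).2 := hm (by omega)
      have : ((st (ev (k0 + L) f n) (ε / 6) (L - 1 - i)).2 : ℝ) ≤
        (st (ev (k0 + L) f n) (ε / 6) L).2 := by exact_mod_cast this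
      linarith
    · intro i
      have : (0 : ℝ) ≤ (st (ev (k0 + L) f n) (ε / 6) (L - 1 - i)).2 := Nat.cast_nonneg _
      linarith
    · intro i i' hi hi'
      have : (st (ev (k0 + L) f n) (ε / 6) (L - 1 - i')).2 ≤
        (st (ev (k0 + L) f n) (ε / 6) (L - 1 - i)).2 := hm (by omega)
      have : ((st (ev (k0 + L) f n) (ε / 6) (L - 1 - i')).2 : ℝ) ≤
        (st (ev (k0 + L) f n) (ε / 6) (L - 1 - i)).2 := by exact_mod_cast this
      linarith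
    · intro i i' hi hi' hj
      have e1 : E (k0 + i + 1) f n = ev (k0 + L) f n (L - 1 - i) := by
        rw [ev]; congr 1; omega
      have e2 : E (k0 + i' + 1) f n = ev (k0 + L) f n (L - 1 - i') := by
        rw [ev]; congr 1; omega
      rw [e1, e2, abs_sub_comm] at hj
      have e3 := st_jump (ev (k0 + L) f n) hb (show L - 1 - i' ≤ L - 1 - i by omega)
        (by linarith)
      have : ((st (ev (k0 + L) f n) (ε / 6) (L - 1 - i')).2 : ℝ) + 1 ≤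
        (st (ev (k0 + L) f n) (ε / 6) (L - 1 - i)).2 := by exact_mod_cast e3
      linarith
  refine (sum_le_sum h4).trans ?_
  rw [sum_add_distrib, ← mul_sum, sum_comm]
  have h5 : ∑ i ∈ range L, ∑ n ∈ range (2 ^ (k0 + L)),
      (10 * T i n + 8 * E (k0 + i + 1) f n ^ 2 / 2 ^ (k0 + i)) ≤ 61456 * N2 := by
    have e1 : ∀ i ∈ range L, ∑ n ∈ range (2 ^ (k0 + L)),
        (10 * T i n + 8 * E (k0 + i + 1) f n ^ 2 / 2 ^ (k0 + i)) ≤
        10 * ∑ n ∈ range (2 ^ (k0 + L)), T i n + 8 * N2 * (1 / 2) ^ i := by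
      intro i hi
      rw [mem_range] at hi
      rw [sum_add_distrib, ← mul_sum]
      have e2 : ∑ n ∈ range (2 ^ (k0 + L)), 8 * E (k0 + i + 1) f n ^ 2 / 2 ^ (k0 + i) =
          8 * (∑ n ∈ range (2 ^ (k0 + L)), E (k0 + i + 1) f n ^ 2) * (1 / 2 ^ (k0 + i)) := by
        rw [mul_sum, sum_mul]; apply sum_congr rfl; intro n _; ring
      have e3 := pyth2 (show k0 ≤ k0 + i + 1 by omega) (show k0 + i + 1 ≤ k0 + L by omega) f
      have e4 : 0 ≤ ∑ n ∈ range (2 ^ (k0 + L)), (E k0 f n - E (k0 + i + 1) f n) ^ 2 :=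
        sum_nonneg fun _ _ => sq_nonneg _
      have e5 : (1 : ℝ) / 2 ^ (k0 + i) ≤ (1 / 2) ^ i := by
        rw [one_div_pow]
        apply one_div_le_one_div_of_le (by positivity)
        exact pow_le_pow_right₀ (by norm_num) (by omega)
      rw [e2]
      have e6 : ∑ n ∈ range (2 ^ (k0 + L)), E (k0 + i + 1) f n ^ 2 ≤ N2 := by linarith
      have e7 : 8 * (∑ n ∈ range (2 ^ (k0 + L)), E (k0 + i + 1) f n ^ 2) * (1 / 2 ^ (k0 + i)) ≤
          8 * N2 * (1 / 2) ^ i := by gcongr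
      linarith
    refine (sum_le_sum e1).trans ?_
    rw [sum_add_distrib, ← mul_sum, ← mul_sum]
    have e8 := geom_le (1 / 2) (by norm_num) (by norm_num) L
    norm_num at e8
    have e9 : 8 * N2 * ∑ i ∈ range L, (1 / 2 : ℝ) ^ i ≤ 8 * N2 * 2 := by
      gcongr
    linarith
  have h6 := stops k0 L f hb
  have h7 : ∑ n ∈ range (2 ^ (k0 + L)), ((st (ev (k0 + L) f n) (ε / 6) L).2 : ℝ) ≤
      36 / ε ^ 2 * N2 := by
    rw [← hN2] at h6
    have e1 : 36 / ε ^ 2 * ((ε / 6) ^ 2 *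
        ∑ n ∈ range (2 ^ (k0 + L)), ((st (ev (k0 + L) f n) (ε / 6) L).2 : ℝ)) ≤
        36 / ε ^ 2 * N2 := by gcongr
    have e2 : 36 / ε ^ 2 * ((ε / 6) ^ 2 *
        ∑ n ∈ range (2 ^ (k0 + L)), ((st (ev (k0 + L) f n) (ε / 6) L).2 : ℝ)) =
        ∑ n ∈ range (2 ^ (k0 + L)), ((st (ev (k0 + L) f n) (ε / 6) L).2 : ℝ) := by
      field_simp; ring
    linarith
  have h8 : 27 / ε ^ 2 * ∑ i ∈ range L, ∑ n ∈ range (2 ^ (k0 + L)),
      (10 * T i n + 8 * E (k0 + i + 1) f n ^ 2 / 2 ^ (k0 + i)) ≤ 27 / ε ^ 2 * (61456 * N2) := by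
    gcongr
  have h9 : 0 ≤ N2 / ε ^ 2 := by positivity
  calc _ ≤ 27 / ε ^ 2 * (61456 * N2) + 36 / ε ^ 2 * N2 := add_le_add h8 h7
    _ = 1659348 * (N2 / ε ^ 2) := by ring
    _ ≤ 1700000 * (N2 / ε ^ 2) := by linarith
    _ = _ := by ring

end Pool.Agent.J6H52.Jump
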