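import Pool.Agent.J6H52.Jump.Fine
import Pool.Agent.J6H52.Jump.Coarse

/-! Decomposition of a nonnegative function and the bound for the variation within the dyadic
blocks of lengths. -/

set_option autoImplicit false

open Finset

namespace Pool.Agent.J6H52.Jump

lemma E_supp {l K : ℕ} (h : l ≤ K) {f : ℕ → ℝ} (hsupp : ∀ n, 2 ^ K ≤ n → f n = 0) :
    ∀ n, 2 ^ K ≤ n → E l f n = 0 := by
  intro n hn
  obtain ⟨a, ha⟩ : ∃ a, 2 ^ K = 2 ^ l * a := ⟨2 ^ (K - l), by
    rw [← pow_add]; congr 1; omega⟩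
  have h1 : a ≤ n / 2 ^ l := by
    rw [Nat.le_div_iff_mul_le (by positivity), mul_comm, ← ha]; exact hn
  have h2 : 2 ^ K ≤ 2 ^ l * (n / 2 ^ l) := by
    rw [ha]; exact Nat.mul_le_mul_left _ h1
  rw [E, S_range, sum_eq_zero, zero_div]
  intro r _
  exact hsupp _ (by omega)

lemma E_nonneg {f : ℕ → ℝ} (hf : ∀ n, 0 ≤ f n) (k n : ℕ) : 0 ≤ E k f n := by
  rw [E, S_range]
  have : 0 ≤ ∑ r ∈ range (2 ^ k), f (2 ^ k * (n / 2 ^ k) + r) := sum_nonneg fun _ _ => hf _
  positivity

lemma E_block (l : ℕ) (f : ℕ → ℝ) (i : ℕ) :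
    ∑ r ∈ range (2 ^ l), f (2 ^ l * i + r) = 2 ^ l * E l f (2 ^ l * i) := by
  rw [E, Nat.mul_div_cancel_left _ (by positivity), S_range, mul_div_cancel₀ _ (by positivity)]

lemma pyth {l K : ℕ} (h : l ≤ K) (w : ℕ → ℝ) :
    ∑ n ∈ range (2 ^ K), (w n - E l w n) ^ 2 + ∑ n ∈ range (2 ^ K), E l w n ^ 2 =
      ∑ n ∈ range (2 ^ K), w n ^ 2 := by
  obtain ⟨a, ha⟩ : ∃ a, 2 ^ K = 2 ^ l * a := ⟨2 ^ (K - l), by
    rw [← pow_add]; congr 1; omega⟩
  have h1 := orth (zr_sub_E l w) (E_cst l w) a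
  rw [← ha] at h1
  rw [← sum_add_distrib]
  have h2 : ∑ n ∈ range (2 ^ K), w n ^ 2 = ∑ n ∈ range (2 ^ K),
      ((w n - E l w n) ^ 2 + E l w n ^ 2) + 2 * ∑ n ∈ range (2 ^ K), (w n - E l w n) * E l w n := by
    rw [mul_sum, ← sum_add_distrib]
    apply sum_congr rfl; intro n _; ring
  rw [h2, h1]; ring

lemma E_contr {l K : ℕ} (h : l ≤ K) (w : ℕ → ℝ) :
    ∑ n ∈ range (2 ^ K), E l w n ^ 2 ≤ ∑ n ∈ range (2 ^ K), w n ^ 2 := by
  have h1 := pyth h w
  have h2 : 0 ≤ ∑ n ∈ range (2 ^ K), (w n - E l w n) ^ 2 := sum_nonneg fun _ _ => sq_nonneg _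
  linarith

lemma pyth2 {k l K : ℕ} (hkl : k ≤ l) (h : l ≤ K) (f : ℕ → ℝ) :
    ∑ n ∈ range (2 ^ K), (E k f n - E l f n) ^ 2 + ∑ n ∈ range (2 ^ K), E l f n ^ 2 =
      ∑ n ∈ range (2 ^ K), E k f n ^ 2 := by
  have h1 := pyth h (E k f)
  have h2 : ∀ n, E l (E k f) n = E l f n := fun n => E_E hkl f n
  simpa only [h2] using h1

lemma geom_le (r : ℝ) (h0 : 0 ≤ r) (h1 : r < 1) (m : ℕ) :
    ∑ t ∈ range m, r ^ t ≤ 1 / (1 - r) := by
  rw [le_div_iff₀ (by linarith), mul_comm]
  have h2 := mul_neg_geom_sum r m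
  have h3 : 0 ≤ r ^ m := by positivity
  linarith

/-- distance of two indices -/
def ds (i j : ℕ) : ℕ := (i - j) + (j - i)

lemma ds_comm (i j : ℕ) : ds i j = ds j i := by unfold ds; omega

lemma sum_ds (r : ℝ) (h0 : 0 ≤ r) (h1 : r < 1) (i m : ℕ) :
    ∑ j ∈ range m, r ^ ds i j ≤ 2 / (1 - r) := by
  have h2 : ∀ j ∈ range m, r ^ ds i j ≤
      (if j ≤ i then r ^ (i - j) else 0) + (if i ≤ j then r ^ (j - i) else 0) := by
    intro j _
    unfold ds
    rcases le_total j i with h | h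
    · rw [if_pos h, show j - i = 0 by omega, add_zero]
      split_ifs
      · have : 0 ≤ r ^ 0 := by positivity
        linarith
      · linarith
    · rw [if_pos h, show i - j = 0 by omega, zero_add]
      split_ifs
      · have : 0 ≤ r ^ 0 := by positivity
        linarith
      · linarith
  refine (sum_le_sum h2).trans ?_
  rw [sum_add_distrib, ← sum_filter, ← sum_filter]
  have h3 : ∑ j ∈ (range m).filter (fun j => j ≤ i), r ^ (i - j) ≤ 1 / (1 - r) := by
    calc ∑ j ∈ (range m).filter (fun j => j ≤ i), r ^ (i - j)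
        ≤ ∑ j ∈ range (i + 1), r ^ (i - j) := by
          apply sum_le_sum_of_subset_of_nonneg
          · intro j hj
            rw [mem_filter] at hj
            rw [mem_range]; omega
          · intro j _ _; positivity
      _ = ∑ j ∈ range (i + 1), r ^ (i + 1 - 1 - j) := by simp
      _ = ∑ t ∈ range (i + 1), r ^ t := sum_range_reflect (fun t => r ^ t) (i + 1)
      _ ≤ _ := geom_le r h0 h1 _
  have h4 : ∑ j ∈ (range m).filter (fun j => i ≤ j), r ^ (j - i) ≤ 1 / (1 - r) := by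
    have h5 : (range m).filter (fun j => i ≤ j) = Ico i m := by
      ext j; rw [mem_filter, mem_range, mem_Ico]; tauto
    rw [h5, sum_Ico_eq_sum_range]
    calc ∑ t ∈ range (m - i), r ^ (i + t - i) = ∑ t ∈ range (m - i), r ^ t := by
          apply sum_congr rfl; intro t _; congr 1; omega
      _ ≤ _ := geom_le r h0 h1 _
  calc _ ≤ 1 / (1 - r) + 1 / (1 - r) := add_le_add h3 h4
    _ = _ := by ring

/-- the pieces of `f` -/
noncomputable def pcs (k0 L : ℕ) (f : ℕ → ℝ) (j n : ℕ) : ℝ :=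
  if j = 0 then f n - E k0 f n else
    if j ≤ L then E (k0 + (j - 1)) f n - E (k0 + j) f n else E (k0 + L) f n

lemma pcs_sum (k0 L : ℕ) (f : ℕ → ℝ) (n : ℕ) : ∑ j ∈ range (L + 2), pcs k0 L f j n = f n := by
  rw [sum_range_succ, sum_range_succ']
  have h1 : pcs k0 L f (L + 1) n = E (k0 + L) f n := by
    rw [pcs, if_neg (by omega), if_neg (by omega)]
  have h2 : pcs k0 L f 0 n = f n - E k0 f n := by rw [pcs, if_pos rfl]
  have h3 : ∀ j ∈ range L, pcs k0 L f (j + 1) n = E (k0 + j) f n - E (k0 + (j + 1)) f n := by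
    intro j hj
    rw [mem_range] at hj
    rw [pcs, if_neg (by omega), if_pos (by omega), Nat.add_sub_cancel]
  rw [h1, h2, sum_congr rfl h3, sum_range_sub' (fun j => E (k0 + j) f n)]
  simp

/-- norms of the pieces -/
noncomputable def nrm (k0 L : ℕ) (f : ℕ → ℝ) (j : ℕ) : ℝ :=
  if j = 0 then ∑ n ∈ range (2 ^ (k0 + L)), E k0 f n ^ 2 else
    ∑ n ∈ range (2 ^ (k0 + L)), pcs k0 L f j n ^ 2

lemma nrm_nonneg (k0 L : ℕ) (f : ℕ → ℝ) (j : ℕ) : 0 ≤ nrm k0 L f j := by
  unfold nrm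
  split_ifs <;> exact sum_nonneg fun _ _ => sq_nonneg _

lemma nrm_sum (k0 L : ℕ) (f : ℕ → ℝ) : ∑ j ∈ range (L + 2), nrm k0 L f j =
    2 * ∑ n ∈ range (2 ^ (k0 + L)), E k0 f n ^ 2 := by
  rw [sum_range_succ, sum_range_succ']
  have h1 : nrm k0 L f (L + 1) = ∑ n ∈ range (2 ^ (k0 + L)), E (k0 + L) f n ^ 2 := by
    rw [nrm, if_neg (by omega)]
    apply sum_congr rfl; intro n _
    rw [pcs, if_neg (by omega), if_neg (by omega)]
  have h2 : nrm k0 L f 0 = ∑ n ∈ range (2 ^ (k0 + L)), E k0 f n ^ 2 := by rw [nrm, if_pos rfl]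
  have h3 : ∀ j ∈ range L, nrm k0 L f (j + 1) =
      ∑ n ∈ range (2 ^ (k0 + L)), E (k0 + j) f n ^ 2 -
        ∑ n ∈ range (2 ^ (k0 + L)), E (k0 + (j + 1)) f n ^ 2 := by
    intro j hj
    rw [mem_range] at hj
    have h4 := pyth2 (show k0 + j ≤ k0 + (j + 1) by omega)
      (show k0 + (j + 1) ≤ k0 + L by omega) f
    have h5 : nrm k0 L f (j + 1) = ∑ n ∈ range (2 ^ (k0 + L)),
        (E (k0 + j) f n - E (k0 + (j + 1)) f n) ^ 2 := by
      rw [nrm, if_neg (by omega)]
      apply sum_congr rfl; intro n _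
      rw [pcs, if_neg (by omega), if_pos (by omega), Nat.add_sub_cancel]
    rw [h5]; linarith
  rw [h1, h2, sum_congr rfl h3,
    sum_range_sub' (fun j => ∑ n ∈ range (2 ^ (k0 + L)), E (k0 + j) f n ^ 2)]
  simp only [add_zero]
  ring

/-- the estimate for one piece -/
lemma piece (k0 L : ℕ) {f : ℕ → ℝ} (hf : ∀ n, 0 ≤ f n)
    (hsupp : ∀ n, 2 ^ (k0 + L) ≤ n → f n = 0) (i j : ℕ) (hi : i < L) (hj : j < L + 2) :
    ∃ P : ℕ → ℝ, (∀ n, Ctl (k0 + i) (A (pcs k0 L f j) n) (E (k0 + i + 1) (pcs k0 L f j) n) (P n)) ∧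
      (∀ n, 0 ≤ P n) ∧
      ∑ n ∈ range (2 ^ (k0 + L)), P n ≤ 64 * (1 / 2) ^ ds i j * nrm k0 L f j := by
  rcases Nat.eq_zero_or_pos j with rfl | hj0
  · -- the finest part
    have e : pcs k0 L f 0 = fun n => f n - E k0 f n := by
      funext n; rw [pcs, if_pos rfl]
    rw [e]
    obtain ⟨P, h1, h2, h3⟩ := fine (l := k0) (k := k0 + i) (K := k0 + L)
      (u := fun n => f n - E k0 f n) (T := fun n => 2 * 2 ^ k0 * E k0 f n) (zr_sub_E k0 f)
      (fun n m h => by simp only [E_cst k0 f n m h])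
      (fun n => by have := E_nonneg hf k0 n; positivity)
      (fun b => by
        calc ∑ r ∈ range (2 ^ k0), |f (2 ^ k0 * b + r) - E k0 f (2 ^ k0 * b + r)|
            ≤ ∑ r ∈ range (2 ^ k0), (f (2 ^ k0 * b + r) + E k0 f (2 ^ k0 * b + r)) := by
              apply sum_le_sum; intro r _
              have h1 := hf (2 ^ k0 * b + r)
              have h2 := E_nonneg hf k0 (2 ^ k0 * b + r)
              rw [abs_le]; constructor <;> linarith
          _ = 2 ^ k0 * E k0 f (2 ^ k0 * b) + 2 ^ k0 * E k0 f (2 ^ k0 * b) := by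
              rw [sum_add_distrib, E_block, E_block, E_E le_rfl]
          _ = _ := by ring)
      (by omega) (by omega)
      (fun n hn => by rw [hsupp n hn, E_supp (by omega) hsupp n hn, sub_zero])
    refine ⟨P, h1, h2, h3.trans ?_⟩
    have e1 : ds i 0 = i := by unfold ds; omega
    rw [e1, nrm, if_pos rfl]
    have e2 : ∑ n ∈ range (2 ^ (k0 + L)), (2 * 2 ^ k0 * E k0 f n) ^ 2 =
        4 * (2 ^ k0) ^ 2 * ∑ n ∈ range (2 ^ (k0 + L)), E k0 f n ^ 2 := by
      rw [mul_sum]; apply sum_congr rfl; intro n _; ring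
    rw [e2]
    apply le_of_eq
    rw [pow_add, one_div, inv_pow]
    field_simp
    ring
  · have hN : nrm k0 L f j = ∑ n ∈ range (2 ^ (k0 + L)), pcs k0 L f j n ^ 2 := by
      rw [nrm, if_neg (by omega)]
    have hsu : ∀ n, 2 ^ (k0 + L) ≤ n → pcs k0 L f j n = 0 := by
      intro n hn
      rw [pcs, if_neg (by omega)]
      split_ifs
      · rw [E_supp (by omega) hsupp n hn, E_supp (by omega) hsupp n hn, sub_zero]
      · rw [E_supp (by omega) hsupp n hn]
    rcases le_or_gt j (i + 1) with hji | hji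
    · -- fine
      have hZ : Zr (k0 + j) (pcs k0 L f j) := by
        have e : pcs k0 L f j = fun n => E (k0 + (j - 1)) f n - E (k0 + j) f n := by
          funext n; rw [pcs, if_neg (by omega), if_pos (by omega)]
        rw [e]
        exact zr_diff (by omega) f
      obtain ⟨P, h1, h2, h3⟩ := fine (l := k0 + j) (k := k0 + i) (K := k0 + L)
        (u := pcs k0 L f j) (T := fun n => 2 ^ (k0 + j) * E (k0 + j) (fun m => |pcs k0 L f j m|) n)
        hZ
        (fun n m h => by simp only [E_cst (k0 + j) _ n m h])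
        (fun n => by
          have := E_nonneg (f := fun m => |pcs k0 L f j m|) (fun _ => abs_nonneg _) (k0 + j) n
          positivity)
        (fun b => by
          rw [E_block (k0 + j) (fun m => |pcs k0 L f j m|) b])
        (by omega) (by omega) hsu
      refine ⟨P, h1, h2, h3.trans ?_⟩
      have e2 : ∑ n ∈ range (2 ^ (k0 + L)),
          (2 ^ (k0 + j) * E (k0 + j) (fun m => |pcs k0 L f j m|) n) ^ 2 ≤
          (2 ^ (k0 + j)) ^ 2 * nrm k0 L f j := by
        rw [hN]
        have e3 := E_contr (show k0 + j ≤ k0 + L by omega) (fun m => |pcs k0 L f j m|)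
        simp only [sq_abs] at e3
        calc _ = (2 ^ (k0 + j)) ^ 2 * ∑ n ∈ range (2 ^ (k0 + L)),
              E (k0 + j) (fun m => |pcs k0 L f j m|) n ^ 2 := by
              rw [mul_sum]; apply sum_congr rfl; intro n _; ring
          _ ≤ _ := by gcongr
      have hn0 := nrm_nonneg k0 L f j
      calc _ ≤ 16 / (2 ^ (k0 + i) * 2 ^ (k0 + j)) * ((2 ^ (k0 + j)) ^ 2 * nrm k0 L f j) := by
            gcongr
        _ = 16 * (2 ^ j / 2 ^ i) * nrm k0 L f j := by
            rw [pow_add, pow_add]; field_simp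
        _ ≤ 64 * (1 / 2) ^ ds i j * nrm k0 L f j := by
            apply mul_le_mul_of_nonneg_right _ hn0
            rcases Nat.eq_or_lt_of_le hji with h | h
            · subst h
              have e1 : ds i (i + 1) = 1 := by unfold ds; omega
              rw [e1, pow_succ]
              field_simp
              norm_num
            · have e1 : ds i j = i - j := by unfold ds; omega
              rw [e1]
              have e4 : (2 : ℝ) ^ i = 2 ^ (i - j) * 2 ^ j := by rw [← pow_add]; congr 1; omega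
              rw [e4, one_div, inv_pow]
              have e5 : (2 : ℝ) ^ j / (2 ^ (i - j) * 2 ^ j) = (2 ^ (i - j))⁻¹ := by field_simp
              rw [e5]
              have : (0 : ℝ) < (2 ^ (i - j))⁻¹ := by positivity
              linarith
    · -- coarse
      have hC : Cst (k0 + (j - 1)) (pcs k0 L f j) := by
        rcases le_or_gt j L with hjL | hjL
        · have e : pcs k0 L f j = fun n => E (k0 + (j - 1)) f n - E (k0 + j) f n := by
            funext n; rw [pcs, if_neg (by omega), if_pos (by omega)]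
          rw [e]
          intro n m h
          simp only
          rw [E_cst (k0 + (j - 1)) f n m h,
            (E_cst (k0 + j) f).mono (show k0 + (j - 1) ≤ k0 + j by omega) n m h]
        · have e : pcs k0 L f j = E (k0 + L) f := by
            funext n; rw [pcs, if_neg (by omega), if_neg (by omega)]
          rw [e, show k0 + (j - 1) = k0 + L by omega]
          exact E_cst _ f
      obtain ⟨P, h1, h2, h3⟩ := coarse (l := k0 + (j - 1)) (k := k0 + i) (K := k0 + L) hC
        (by omega) (by omega) hsu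
      refine ⟨P, h1, h2, h3.trans ?_⟩
      rw [← hN]
      have hn0 := nrm_nonneg k0 L f j
      apply mul_le_mul_of_nonneg_right _ hn0
      have e1 : ds i j = j - i := by unfold ds; omega
      rw [e1, pow_add, pow_add, one_div, inv_pow]
      have e4 : (2 : ℝ) ^ (j - i) * 2 ^ i = 2 * 2 ^ (j - 1) := by
        rw [← pow_add, ← pow_succ']; congr 1; omega
      have e5 : (8 : ℝ) * (2 ^ k0 * 2 ^ i) / (2 ^ k0 * 2 ^ (j - 1)) = 16 * (2 ^ (j - i))⁻¹ := by
        rw [div_eq_iff (by positivity)]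
        field_simp
        linear_combination 8 * e4
      rw [e5]
      have : (0 : ℝ) < (2 ^ (j - i))⁻¹ := by positivity
      linarith

/-- The total variation within the dyadic blocks of lengths. -/
theorem total (k0 L : ℕ) {f : ℕ → ℝ} (hf : ∀ n, 0 ≤ f n)
    (hsupp : ∀ n, 2 ^ (k0 + L) ≤ n → f n = 0) :
    ∃ T : ℕ → ℕ → ℝ, (∀ i < L, ∀ n, Ctl (k0 + i) (A f n) (E (k0 + i + 1) f n) (T i n)) ∧
      (∀ i n, 0 ≤ T i n) ∧
      ∑ i ∈ range L, ∑ n ∈ range (2 ^ (k0 + L)), T i n ≤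
        6144 * ∑ n ∈ range (2 ^ (k0 + L)), E k0 f n ^ 2 := by
  classical
  have hp : ∀ i j : ℕ, ∃ P : ℕ → ℝ, (∀ n, 0 ≤ P n) ∧ (i < L → j < L + 2 →
      (∀ n, Ctl (k0 + i) (A (pcs k0 L f j) n) (E (k0 + i + 1) (pcs k0 L f j) n) (P n)) ∧
      ∑ n ∈ range (2 ^ (k0 + L)), P n ≤ 64 * (1 / 2) ^ ds i j * nrm k0 L f j) := by
    intro i j
    by_cases h : i < L ∧ j < L + 2
    · obtain ⟨P, h1, h2, h3⟩ := piece k0 L hf hsupp i j h.1 h.2
      exact ⟨P, h2, fun _ _ => ⟨h1, h3⟩⟩
    · exact ⟨fun _ => 0, fun _ => le_rfl, fun h1 h2 => absurd ⟨h1, h2⟩ h⟩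
  choose P hP0 hP using hp
  refine ⟨fun i n => 6 * ∑ j ∈ range (L + 2), P i j n / (2 / 3) ^ ds i j, ?_, ?_, ?_⟩
  · intro i hi n
    have h1 := Ctl.sum (range (L + 2)) (k := k0 + i) (φ := fun j => A (pcs k0 L f j) n)
      (e := fun j => E (k0 + i + 1) (pcs k0 L f j) n) (T := fun j => P i j n)
      (fun j hj => (hP i j hi (mem_range.1 hj)).1 n) (fun j => (2 / 3) ^ ds i j)
      (fun j _ => by positivity) 6
      (by
        refine (sum_ds (2 / 3) (by norm_num) (by norm_num) i (L + 2)).trans ?_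
        norm_num)
    have e : f = fun m => ∑ j ∈ range (L + 2), pcs k0 L f j m := by
      funext m; rw [pcs_sum]
    have e1 : ∀ y, ∑ j ∈ range (L + 2), A (pcs k0 L f j) n y = A f n y := by
      intro y
      conv_rhs => rw [e]
      rw [A_sum]
    have e2 : ∑ j ∈ range (L + 2), E (k0 + i + 1) (pcs k0 L f j) n = E (k0 + i + 1) f n := by
      conv_rhs => rw [e]
      rw [E_sum]
    simp only [e1, e2] at h1
    exact h1
  · intro i n
    have : 0 ≤ ∑ j ∈ range (L + 2), P i j n / (2 / 3) ^ ds i j :=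
      sum_nonneg fun j _ => div_nonneg (hP0 i j n) (by positivity)
    positivity
  · have h1 : ∀ i ∈ range L, ∑ n ∈ range (2 ^ (k0 + L)),
        6 * ∑ j ∈ range (L + 2), P i j n / (2 / 3) ^ ds i j ≤
        384 * ∑ j ∈ range (L + 2), (3 / 4) ^ ds i j * nrm k0 L f j := by
      intro i hi
      rw [mem_range] at hi
      rw [← mul_sum, sum_comm]
      have h2 : ∀ j ∈ range (L + 2), ∑ n ∈ range (2 ^ (k0 + L)), P i j n / (2 / 3) ^ ds i j ≤
          64 * ((3 / 4) ^ ds i j * nrm k0 L f j) := by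
        intro j hj
        rw [mem_range] at hj
        rw [← sum_div, div_le_iff₀ (by positivity)]
        refine (hP i j hi hj).2.trans (le_of_eq ?_)
        have : ((1 : ℝ) / 2) ^ ds i j = (3 / 4) ^ ds i j * (2 / 3) ^ ds i j := by
          rw [← mul_pow]; norm_num
        rw [this]; ring
      calc 6 * ∑ j ∈ range (L + 2), ∑ n ∈ range (2 ^ (k0 + L)), P i j n / (2 / 3) ^ ds i j
          ≤ 6 * ∑ j ∈ range (L + 2), 64 * ((3 / 4) ^ ds i j * nrm k0 L f j) := by
            apply mul_le_mul_of_nonneg_left (sum_le_sum h2) (by norm_num)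
        _ = _ := by rw [← mul_sum]; ring
    refine (sum_le_sum h1).trans ?_
    rw [← mul_sum, sum_comm]
    have h2 : ∑ j ∈ range (L + 2), ∑ i ∈ range L, (3 / 4 : ℝ) ^ ds i j * nrm k0 L f j ≤
        8 * ∑ j ∈ range (L + 2), nrm k0 L f j := by
      rw [mul_sum]
      apply sum_le_sum
      intro j _
      rw [← sum_mul]
      apply mul_le_mul_of_nonneg_right _ (nrm_nonneg k0 L f j)
      have h3 := sum_ds (3 / 4) (by norm_num) (by norm_num) j L
      norm_num at h3
      calc ∑ i ∈ range L, (3 / 4 : ℝ) ^ ds i j = ∑ i ∈ range L, (3 / 4 : ℝ) ^ ds j i := by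
            apply sum_congr rfl; intro i _; rw [ds_comm]
        _ ≤ 8 := h3
    rw [nrm_sum] at h2
    calc _ ≤ 384 * (8 * (2 * ∑ n ∈ range (2 ^ (k0 + L)), E k0 f n ^ 2)) := by gcongr
      _ = _ := by ring

end Pool.Agent.J6H52.Jump
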