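import Pool.Agent.J6H52.Jump.Basic

/-! Fine part: functions with vanishing sums over the dyadic intervals of length `2 ^ l`. -/

set_option autoImplicit false

open Finset

namespace Pool.Agent.J6H52.Jump

/-- within a block -/
lemma fine_block {l : ℕ} {u T : ℕ → ℝ} (hT : Cst l T)
    (hu : ∀ i : ℕ, ∑ r ∈ range (2 ^ l), |u (2 ^ l * i + r)| ≤ T (2 ^ l * i))
    (i x x' : ℕ) (h1 : 2 ^ l * i ≤ x) (h2 : x ≤ x') (h3 : x' ≤ 2 ^ l * i + 2 ^ l) :
    (S u x' - S u x) ^ 2 ≤ S (fun j => T j * |u j|) x' - S (fun j => T j * |u j|) x := by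
  rw [S_Ico _ h2, S_Ico _ h2]
  have h4 : ∀ j ∈ Ico x x', T j * |u j| = T (2 ^ l * i) * |u j| := by
    intro j hj
    rw [mem_Ico] at hj
    congr 1
    apply hT
    rw [Nat.mul_div_cancel_left _ (by positivity)]
    apply Nat.div_eq_of_lt_le
    · rw [mul_comm]; omega
    · rw [Nat.succ_mul, mul_comm]; omega
  rw [sum_congr rfl h4, ← mul_sum]
  have h5 : |∑ j ∈ Ico x x', u j| ≤ ∑ j ∈ Ico x x', |u j| := abs_sum_le_sum_abs _ _
  have h6 : ∑ j ∈ Ico x x', |u j| ≤ T (2 ^ l * i) := by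
    refine le_trans ?_ (hu i)
    rw [← S_range (fun j => |u j|), S_Ico _ (Nat.le_add_right _ _)]
    apply sum_le_sum_of_subset_of_nonneg
    · intro j hj
      rw [mem_Ico] at hj ⊢
      omega
    · intro j _ _; exact abs_nonneg _
  have h7 : 0 ≤ ∑ j ∈ Ico x x', |u j| := sum_nonneg fun _ _ => abs_nonneg _
  calc (∑ j ∈ Ico x x', u j) ^ 2 = |∑ j ∈ Ico x x', u j| ^ 2 := (sq_abs _).symm
    _ ≤ (∑ j ∈ Ico x x', |u j|) ^ 2 := by gcongr
    _ = (∑ j ∈ Ico x x', |u j|) * (∑ j ∈ Ico x x', |u j|) := sq _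
    _ ≤ T (2 ^ l * i) * (∑ j ∈ Ico x x', |u j|) := by gcongr

lemma fine_S {l : ℕ} {u T : ℕ → ℝ} (hZ : Zr l u) (hT : Cst l T) (hT0 : ∀ n, 0 ≤ T n)
    (hu : ∀ i : ℕ, ∑ r ∈ range (2 ^ l), |u (2 ^ l * i + r)| ≤ T (2 ^ l * i))
    (x x' : ℕ) (h2 : x ≤ x') :
    (S u x' - S u x) ^ 2 ≤ 2 * (S (fun j => T j * |u j|) x' - S (fun j => T j * |u j|) x) := by
  have hm : Monotone (S (fun j => T j * |u j|)) :=
    S_mono fun j => mul_nonneg (hT0 j) (abs_nonneg _)
  have hq : 0 < 2 ^ l := by positivity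
  have e1 := Nat.div_add_mod x (2 ^ l)
  have e2 := Nat.mod_lt x hq
  have e3 := Nat.div_add_mod x' (2 ^ l)
  have e4 := Nat.mod_lt x' hq
  rcases eq_or_ne (x / 2 ^ l) (x' / 2 ^ l) with h | h
  · have h3 := fine_block hT hu (x / 2 ^ l) x x' (by omega) h2 (by rw [h]; omega)
    have h4 := hm h2
    linarith
  · have h3 : x / 2 ^ l < x' / 2 ^ l := lt_of_le_of_ne (Nat.div_le_div_right h2) h
    have h5 : 2 ^ l * (x / 2 ^ l + 1) ≤ 2 ^ l * (x' / 2 ^ l) := Nat.mul_le_mul_left _ h3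
    have h6 := fine_block hT hu (x / 2 ^ l) x (2 ^ l * (x / 2 ^ l + 1)) (by omega)
      (by rw [mul_add]; omega) (by rw [mul_add, mul_one])
    have h7 := fine_block hT hu (x' / 2 ^ l) (2 ^ l * (x' / 2 ^ l)) x' le_rfl (by omega)
      (by omega)
    have h8 := hm h5
    rw [hZ] at h6 h7
    nlinarith [sq_nonneg (S u x' + S u x)]

/-- shifted partial sums -/
lemma sum_shift_le {w : ℕ → ℝ} {B : ℝ} (hw : ∀ j, 0 ≤ w j) (hB : ∀ x, S w x ≤ B) (M m : ℕ) :
    ∑ n ∈ range M, (S w (n + m) - S w n) ≤ m * B := by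
  induction m with
  | zero => simp
  | succ m ih =>
      have h1 : ∑ n ∈ range M, (S w (n + (m + 1)) - S w n) =
          ∑ n ∈ range M, (S w (n + m) - S w n) + ∑ n ∈ range M, w (m + n) := by
        rw [← sum_add_distrib]
        apply sum_congr rfl
        intro n _
        rw [← add_assoc, S_succ, add_comm m n]; ring
      have h2 : ∑ n ∈ range M, w (m + n) ≤ B := by
        rw [← S_range]
        have h3 := hB (m + M)
        have h4 : 0 ≤ S w m := sum_nonneg fun j _ => hw j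
        linarith
      rw [h1]; push_cast
      linarith

/-- The fine part. -/
lemma fine {l k K : ℕ} {u T : ℕ → ℝ} (hZ : Zr l u) (hT : Cst l T) (hT0 : ∀ n, 0 ≤ T n)
    (hu : ∀ i : ℕ, ∑ r ∈ range (2 ^ l), |u (2 ^ l * i + r)| ≤ T (2 ^ l * i))
    (hlk : l ≤ k + 1) (hlK : l ≤ K) (hsupp : ∀ n, 2 ^ K ≤ n → u n = 0) :
    ∃ P : ℕ → ℝ, (∀ n, Ctl k (A u n) (E (k + 1) u n) (P n)) ∧ (∀ n, 0 ≤ P n) ∧
      ∑ n ∈ range (2 ^ K), P n ≤ 16 / (2 ^ k * 2 ^ l) * ∑ n ∈ range (2 ^ K), T n ^ 2 := by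
  set w : ℕ → ℝ := fun j => T j * |u j| with hw
  have hw0 : ∀ j, 0 ≤ w j := fun j => mul_nonneg (hT0 j) (abs_nonneg _)
  have hm : Monotone (S w) := S_mono hw0
  have hS := fine_S hZ hT hT0 hu
  have h2k : (0 : ℝ) < 2 ^ k := by positivity
  refine ⟨fun n => 8 / (2 ^ k) ^ 2 * (S w (n + 2 ^ (k + 1)) - S w n), ?_, ?_, ?_⟩
  · intro n
    set P : ℝ := S w (n + 2 ^ (k + 1)) - S w n with hP
    have hP0 : 0 ≤ P := sub_nonneg.2 (hm (Nat.le_add_right _ _))
    have hbd : ∀ y : ℕ, y ≤ 2 ^ (k + 1) → (S u (n + y) - S u n) ^ 2 ≤ 2 * P := by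
      intro y hy
      have h1 := hS n (n + y) (Nat.le_add_right _ _)
      have h2 := hm (show n + y ≤ n + 2 ^ (k + 1) by omega)
      linarith
    have hval : ∀ y : ℕ, 2 ^ k ≤ y → y ≤ 2 ^ (k + 1) →
        (A u n y - E (k + 1) u n) ^ 2 ≤ 8 / (2 ^ k) ^ 2 * P := by
      intro y h1 h2
      have hy : (2 : ℝ) ^ k ≤ y := by exact_mod_cast h1
      rw [hZ.E_eq hlk, sub_zero, A, div_pow, div_mul_eq_mul_div]
      apply div_le_div₀ (by positivity) _ (by positivity)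
      · gcongr
      · linarith [hbd y h2]
    refine ⟨fun y => 4 / (2 ^ k) ^ 2 * S w (n + y) - 4 * P / 2 ^ k * (1 / y), ?_, ?_, hval⟩
    · intro y y' h1 h2 h3
      have hy : (2 : ℝ) ^ k ≤ y := by exact_mod_cast h1
      have hy' : (y : ℝ) ≤ y' := by exact_mod_cast h2
      have hy0 : (0 : ℝ) < y := lt_of_lt_of_le h2k hy
      have hy0' : (0 : ℝ) < y' := lt_of_lt_of_le hy0 hy'
      have e1 : A u n y' - A u n y = (S u (n + y') - S u (n + y)) / y' -
          (S u (n + y) - S u n) * (1 / y - 1 / y') := by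
        rw [A, A]; ring
      have e2 : (A u n y' - A u n y) ^ 2 ≤ 2 * ((S u (n + y') - S u (n + y)) / y') ^ 2 +
          2 * ((S u (n + y) - S u n) * (1 / y - 1 / y')) ^ 2 := by
        rw [e1]
        nlinarith [sq_nonneg ((S u (n + y') - S u (n + y)) / y' +
          (S u (n + y) - S u n) * (1 / y - 1 / y'))]
      have e3 : ((S u (n + y') - S u (n + y)) / y') ^ 2 ≤
          2 / (2 ^ k) ^ 2 * (S w (n + y') - S w (n + y)) := by
        rw [div_pow, div_mul_eq_mul_div]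
        apply div_le_div₀ _ _ (by positivity)
        · gcongr; linarith
        · have := hm (show n + y ≤ n + y' by omega)
          have : 0 ≤ S w (n + y') - S w (n + y) := sub_nonneg.2 this
          positivity
        · exact hS (n + y) (n + y') (by omega)
      have e4 : 0 ≤ (1 : ℝ) / y - 1 / y' := by
        rw [sub_nonneg]
        exact one_div_le_one_div_of_le hy0 hy'
      have e5 : (1 : ℝ) / y - 1 / y' ≤ 1 / 2 ^ k := by
        have : (1 : ℝ) / y ≤ 1 / 2 ^ k := one_div_le_one_div_of_le h2k hy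
        have : (0 : ℝ) ≤ 1 / y' := by positivity
        linarith
      have e6 : ((S u (n + y) - S u n) * (1 / y - 1 / y')) ^ 2 ≤
          2 * P / 2 ^ k * (1 / y - 1 / y') := by
        rw [mul_pow]
        calc (S u (n + y) - S u n) ^ 2 * (1 / (y : ℝ) - 1 / y') ^ 2
            ≤ 2 * P * (1 / (y : ℝ) - 1 / y') ^ 2 := by
              gcongr; exact hbd y (by omega)
          _ = 2 * P * ((1 / (y : ℝ) - 1 / y') * (1 / (y : ℝ) - 1 / y')) := by rw [sq]
          _ ≤ 2 * P * (1 / 2 ^ k * (1 / (y : ℝ) - 1 / y')) := by gcongr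
          _ = _ := by ring
      calc (A u n y' - A u n y) ^ 2 ≤ _ := e2
        _ ≤ 2 * (2 / (2 ^ k) ^ 2 * (S w (n + y') - S w (n + y))) +
            2 * (2 * P / 2 ^ k * (1 / y - 1 / y')) := by linarith
        _ = _ := by ring
    · have e1 := hm (Nat.le_add_right n (2 ^ k))
      have e2 : (1 : ℝ) / ((2 ^ k : ℕ) : ℝ) - 1 / ((2 ^ (k + 1) : ℕ) : ℝ) = 1 / (2 * 2 ^ k) := by
        push_cast; rw [pow_succ]; field_simp; norm_num
      have e3 : 4 / (2 ^ k) ^ 2 * S w (n + 2 ^ (k + 1)) -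
          4 * P / 2 ^ k * (1 / ((2 ^ (k + 1) : ℕ) : ℝ)) -
          (4 / (2 ^ k) ^ 2 * S w (n + 2 ^ k) - 4 * P / 2 ^ k * (1 / ((2 ^ k : ℕ) : ℝ))) =
          4 / (2 ^ k) ^ 2 * (S w (n + 2 ^ (k + 1)) - S w (n + 2 ^ k)) +
            4 * P / 2 ^ k * (1 / (2 * 2 ^ k)) := by
        rw [← e2]; ring
      rw [e3]
      have e4 : 4 / (2 ^ k) ^ 2 * (S w (n + 2 ^ (k + 1)) - S w (n + 2 ^ k)) ≤
          4 / (2 ^ k) ^ 2 * P := by
        gcongr
        rw [hP]; linarith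
      have e5 : 4 * P / 2 ^ k * (1 / (2 * 2 ^ k)) = 2 / (2 ^ k) ^ 2 * P := by
        field_simp; ring
      rw [e5]
      have e6 : 0 ≤ 2 / (2 ^ k) ^ 2 * P := by positivity
      calc _ ≤ 4 / (2 ^ k) ^ 2 * P + 2 / (2 ^ k) ^ 2 * P := by linarith
        _ ≤ 4 / (2 ^ k) ^ 2 * P + 2 / (2 ^ k) ^ 2 * P + 2 / (2 ^ k) ^ 2 * P := by linarith
        _ = _ := by ring
  · intro n
    have := hm (Nat.le_add_right n (2 ^ (k + 1)))
    have : 0 ≤ S w (n + 2 ^ (k + 1)) - S w n := sub_nonneg.2 this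
    positivity
  · rw [← mul_sum]
    obtain ⟨a, ha⟩ : ∃ a, 2 ^ K = 2 ^ l * a := ⟨2 ^ (K - l), by
      rw [← pow_add]; congr 1; omega⟩
    have h1 : S w (2 ^ K) ≤ 1 / 2 ^ l * ∑ n ∈ range (2 ^ K), T n ^ 2 := by
      rw [S, ha, sum_blocks, sum_blocks, mul_sum]
      apply sum_le_sum
      intro i _
      have h2 : ∀ r ∈ range (2 ^ l), w (2 ^ l * i + r) = T (2 ^ l * i) * |u (2 ^ l * i + r)| := by
        intro r hr
        simp only [hw]
        congr 1
        apply hT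
        rw [Nat.mul_add_div (by positivity), Nat.div_eq_of_lt (mem_range.1 hr), add_zero,
          Nat.mul_div_cancel_left _ (by positivity)]
      have h3 : ∀ r ∈ range (2 ^ l), T (2 ^ l * i + r) ^ 2 = T (2 ^ l * i) ^ 2 := by
        intro r hr
        congr 1
        apply hT
        rw [Nat.mul_add_div (by positivity), Nat.div_eq_of_lt (mem_range.1 hr), add_zero,
          Nat.mul_div_cancel_left _ (by positivity)]
      rw [sum_congr rfl h2, sum_congr rfl h3, ← mul_sum, sum_const, card_range, nsmul_eq_mul]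
      push_cast
      rw [one_div, inv_mul_cancel_left₀ (by positivity), sq]
      exact mul_le_mul_of_nonneg_left (hu i) (hT0 _)
    have h4 : ∀ x, S w x ≤ 1 / 2 ^ l * ∑ n ∈ range (2 ^ K), T n ^ 2 := by
      intro x
      refine le_trans ?_ h1
      rcases le_total x (2 ^ K) with h | h
      · exact hm h
      · have h5 := S_Ico w h
        rw [sum_eq_zero (fun j hj => ?_)] at h5
        · linarith
        · rw [mem_Ico] at hj
          simp only [hw]
          rw [hsupp j hj.1]; simp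
    have h6 := sum_shift_le hw0 h4 (2 ^ K) (2 ^ (k + 1))
    calc 8 / (2 ^ k) ^ 2 * ∑ n ∈ range (2 ^ K), (S w (n + 2 ^ (k + 1)) - S w n)
        ≤ 8 / (2 ^ k) ^ 2 * (((2 ^ (k + 1) : ℕ) : ℝ) *
            (1 / 2 ^ l * ∑ n ∈ range (2 ^ K), T n ^ 2)) := by gcongr
      _ = 16 / (2 ^ k * 2 ^ l) * ∑ n ∈ range (2 ^ K), T n ^ 2 := by
          push_cast
          rw [pow_succ (2 : ℝ) k]
          field_simp
          ring

end Pool.Agent.J6H52.Jump
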