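import Pool.Agent.J6H52.Jump.Decomp

/-! Jumps of the dyadic averages: greedy stopping times, from coarse to fine. -/

set_option autoImplicit false

open Finset

namespace Pool.Agent.J6H52.Jump

open Classical in
/-- the last value at which the sequence was stopped, and the number of stops -/
noncomputable def st (e : ℕ → ℝ) (b : ℝ) : ℕ → ℝ × ℕ
  | 0 => (e 0, 0)
  | j + 1 => if b < |e (j + 1) - (st e b j).1| then (e (j + 1), (st e b j).2 + 1) else st e b j

lemma st_near (e : ℕ → ℝ) {b : ℝ} (hb : 0 ≤ b) (j : ℕ) : |e j - (st e b j).1| ≤ b := by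
  cases j with
  | zero => simpa [st] using hb
  | succ j =>
      rw [st]
      split_ifs with h
      · simpa using hb
      · exact not_lt.1 h

lemma st_step (e : ℕ → ℝ) (b : ℝ) (j : ℕ) : (st e b j).2 ≤ (st e b (j + 1)).2 := by
  rw [st]
  split_ifs
  · exact Nat.le_succ _
  · exact le_rfl

lemma st_mono (e : ℕ → ℝ) (b : ℝ) : Monotone fun j => (st e b j).2 :=
  monotone_nat_of_le_succ (st_step e b)

lemma st_same (e : ℕ → ℝ) (b : ℝ) {j j' : ℕ} (h : j ≤ j') (h2 : (st e b j').2 = (st e b j).2) :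
    (st e b j').1 = (st e b j).1 := by
  induction j', h using Nat.le_induction with
  | base => rfl
  | succ j' hj ih =>
      have h3 : (st e b j).2 ≤ (st e b j').2 := st_mono e b hj
      have h4 : (st e b j').2 ≤ (st e b (j' + 1)).2 := st_step e b j'
      have h5 := ih (by omega)
      rw [← h5]
      rw [st] at h2 ⊢
      split_ifs with h6
      · rw [if_pos h6] at h2
        simp only at h2
        omega
      · rfl

lemma st_jump (e : ℕ → ℝ) {b : ℝ} (hb : 0 ≤ b) {j j' : ℕ} (h : j ≤ j')
    (h2 : 2 * b < |e j' - e j|) : (st e b j).2 + 1 ≤ (st e b j').2 := by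
  by_contra hc
  have h3 : (st e b j).2 ≤ (st e b j').2 := st_mono e b h
  have h4 := st_same e b h (by omega)
  have h5 := st_near e hb j
  have h6 := st_near e hb j'
  rw [h4] at h6
  have h7 : |e j' - e j| ≤ |e j' - (st e b j).1| + |e j - (st e b j).1| := by
    rw [show e j' - e j = (e j' - (st e b j).1) - (e j - (st e b j).1) by ring]
    exact abs_sub _ _
  linarith

lemma st_congr {e e' : ℕ → ℝ} (b : ℝ) (j : ℕ) (h : ∀ i ≤ j, e i = e' i) :
    st e b j = st e' b j := by
  induction j with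
  | zero => rw [st, st, h 0 le_rfl]
  | succ j ih =>
      have h1 := ih fun i hi => h i (by omega)
      rw [st, st, h1, h (j + 1) le_rfl]

/-- the dyadic averages from coarse to fine -/
noncomputable def ev (K : ℕ) (f : ℕ → ℝ) (n j : ℕ) : ℝ := E (K - j) f n

lemma st_cst (K : ℕ) (f : ℕ → ℝ) (b : ℝ) (j : ℕ) (n m : ℕ)
    (h : n / 2 ^ (K - j) = m / 2 ^ (K - j)) : st (ev K f n) b j = st (ev K f m) b j := by
  apply st_congr
  intro i hi
  exact (E_cst (K - i) f).mono (show K - j ≤ K - i by omega) n m h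

/-- the stopping potential -/
lemma potential (k0 L : ℕ) (f : ℕ → ℝ) {b : ℝ} (hb : 0 ≤ b) (j : ℕ) (hj : j ≤ L) :
    ∑ n ∈ range (2 ^ (k0 + L)), ((E k0 f n - (st (ev (k0 + L) f n) b j).1) ^ 2 +
      b ^ 2 * (st (ev (k0 + L) f n) b j).2) ≤ ∑ n ∈ range (2 ^ (k0 + L)), E k0 f n ^ 2 := by
  classical
  induction j with
  | zero =>
      have h1 := pyth2 (show k0 ≤ k0 + L by omega) le_rfl f
      have h2 : 0 ≤ ∑ n ∈ range (2 ^ (k0 + L)), E (k0 + L) f n ^ 2 :=
        sum_nonneg fun _ _ => sq_nonneg _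
      have h3 : ∑ n ∈ range (2 ^ (k0 + L)), ((E k0 f n - (st (ev (k0 + L) f n) b 0).1) ^ 2 +
          b ^ 2 * ((st (ev (k0 + L) f n) b 0).2 : ℕ)) =
          ∑ n ∈ range (2 ^ (k0 + L)), (E k0 f n - E (k0 + L) f n) ^ 2 := by
        apply sum_congr rfl
        intro n _
        simp [st, ev]
      rw [h3]; linarith
  | succ j ih =>
      have h1 := ih (by omega)
      set K := k0 + L with hK
      set l := K - (j + 1) with hl
      set w : ℕ → ℝ := fun n => if b < |ev K f n (j + 1) - (st (ev K f n) b j).1| then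
        ev K f n (j + 1) - (st (ev K f n) b j).1 else 0 with hw
      have hwc : Cst l w := by
        intro n m hnm
        have e1 : ev K f n (j + 1) = ev K f m (j + 1) := E_cst l f n m hnm
        have e2 : st (ev K f n) b j = st (ev K f m) b j := by
          apply st_congr
          intro i hi
          exact (E_cst (K - i) f).mono (show l ≤ K - i by omega) n m hnm
        simp only [hw, e1, e2]
      have hz := zr_diff (show k0 ≤ l by omega) f
      obtain ⟨a, ha⟩ : ∃ a, 2 ^ K = 2 ^ l * a := ⟨2 ^ (K - l), by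
        rw [← pow_add]; congr 1; omega⟩
      have ho := orth hz hwc a
      rw [← ha] at ho
      have h2 : ∀ n ∈ range (2 ^ K), (E k0 f n - (st (ev K f n) b (j + 1)).1) ^ 2 +
          b ^ 2 * ((st (ev K f n) b (j + 1)).2 : ℕ) ≤
          ((E k0 f n - (st (ev K f n) b j).1) ^ 2 + b ^ 2 * ((st (ev K f n) b j).2 : ℕ)) -
            2 * ((E k0 f n - E l f n) * w n) := by
        intro n _
        rw [st]
        simp only [hw]
        have e3 : ev K f n (j + 1) = E l f n := rfl
        split_ifs with h3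
        · rw [e3] at h3 ⊢
          simp only
          push_cast
          have h4 : b ^ 2 ≤ (E l f n - (st (ev K f n) b j).1) ^ 2 := by
            rw [← sq_abs (E l f n - (st (ev K f n) b j).1)]
            gcongr
          nlinarith
        · simp
      calc _ ≤ ∑ n ∈ range (2 ^ K), (((E k0 f n - (st (ev K f n) b j).1) ^ 2 +
            b ^ 2 * ((st (ev K f n) b j).2 : ℕ)) - 2 * ((E k0 f n - E l f n) * w n)) :=
            sum_le_sum h2
        _ = ∑ n ∈ range (2 ^ K), ((E k0 f n - (st (ev K f n) b j).1) ^ 2 +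
            b ^ 2 * ((st (ev K f n) b j).2 : ℕ)) := by
            rw [sum_sub_distrib, ← mul_sum, ho]; ring
        _ ≤ _ := h1

lemma stops (k0 L : ℕ) (f : ℕ → ℝ) {b : ℝ} (hb : 0 ≤ b) :
    b ^ 2 * ∑ n ∈ range (2 ^ (k0 + L)), ((st (ev (k0 + L) f n) b L).2 : ℝ) ≤
      ∑ n ∈ range (2 ^ (k0 + L)), E k0 f n ^ 2 := by
  refine le_trans ?_ (potential k0 L f hb L le_rfl)
  rw [mul_sum]
  apply sum_le_sum
  intro n _
  have := sq_nonneg (E k0 f n - (st (ev (k0 + L) f n) b L).1)
  linarith

end Pool.Agent.J6H52.Jump
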