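import Pool.Agent.J6H52.Jump.Count
import Pool.Agent.H357R2.SI.PairFinal

/-! The energy of the primes at the scale `log X`, and the jump inequality for primes in short
intervals. -/

set_option autoImplicit false

open Finset Filter Topology

namespace Pool.Agent.J6H52.Jump

open Pool.Agent.H357R2.SI

open Classical in
/-- indicator function of the primes in `(X, X + U]` -/
noncomputable def ind (X U j : ℕ) : ℝ := if j < U ∧ (X + j + 1).Prime then 1 else 0

lemma ind_nonneg (X U j : ℕ) : 0 ≤ ind X U j := by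
  unfold ind; split_ifs <;> norm_num

lemma ind_sq (X U j : ℕ) : ind X U j ^ 2 = ind X U j := by
  unfold ind; split_ifs <;> norm_num

lemma sq_sum (a : ℕ → ℝ) (h : ℕ) : (∑ r ∈ range h, a r) ^ 2 =
    ∑ r ∈ range h, a r ^ 2 + 2 * ∑ s ∈ range h, ∑ r ∈ range s, a r * a s := by
  induction h with
  | zero => simp
  | succ h ih =>
      rw [sum_range_succ, sum_range_succ, sum_range_succ, add_sq, ih, ← sum_mul]
      ring

lemma sq_sum_le (a : ℕ → ℝ) (ha : ∀ r, a r ^ 2 = a r) (h : ℕ) : (∑ r ∈ range h, a r) ^ 2 ≤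
    1 + 4 * ∑ r ∈ range h, ∑ s ∈ Ico (r + 1) h, a r * a s := by
  have h1 := sq_sum a h
  have h2 : ∑ s ∈ range h, ∑ r ∈ range s, a r * a s =
      ∑ r ∈ range h, ∑ s ∈ Ico (r + 1) h, a r * a s := by
    have := sum_Ico_Ico_comm' 0 h (fun i j => a i * a j)
    simp only [← range_eq_Ico] at this
    rw [this]
  have h3 : ∑ r ∈ range h, a r ^ 2 = ∑ r ∈ range h, a r := sum_congr rfl fun r _ => ha r
  rw [h2, h3] at h1
  nlinarith [sq_nonneg (∑ r ∈ range h, a r - 1)]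

lemma energy_eq (k0 L : ℕ) (f : ℕ → ℝ) : ∑ n ∈ range (2 ^ (k0 + L)), E k0 f n ^ 2 =
    ∑ i ∈ range (2 ^ L), (∑ r ∈ range (2 ^ k0), f (2 ^ k0 * i + r)) ^ 2 / 2 ^ k0 := by
  rw [pow_add, sum_blocks]
  apply sum_congr rfl
  intro i _
  have h1 : ∀ r ∈ range (2 ^ k0), E k0 f (2 ^ k0 * i + r) ^ 2 =
      (∑ r ∈ range (2 ^ k0), f (2 ^ k0 * i + r)) ^ 2 / (2 ^ k0) ^ 2 := by
    intro r hr
    rw [E_block, mul_pow, mul_div_cancel_left₀ _ (by positivity)]
    congr 1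
    apply E_cst
    rw [Nat.mul_add_div (by positivity), Nat.div_eq_of_lt (mem_range.1 hr), add_zero,
      Nat.mul_div_cancel_left _ (by positivity)]
  rw [sum_congr rfl h1, sum_const, card_range, nsmul_eq_mul]
  push_cast
  field_simp

lemma blocks_pairs (X U k0 L : ℕ) :
    ∑ i ∈ range (2 ^ L), (∑ r ∈ range (2 ^ k0), ind X U (2 ^ k0 * i + r)) ^ 2 ≤
      2 ^ L + 4 * ∑ t ∈ range (2 ^ k0), ∑ j ∈ range (2 ^ (k0 + L)),
        ind X U j * ind X U (j + (t + 1)) := by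
  have h1 : ∀ i ∈ range (2 ^ L), (∑ r ∈ range (2 ^ k0), ind X U (2 ^ k0 * i + r)) ^ 2 ≤
      1 + 4 * ∑ r ∈ range (2 ^ k0), ∑ t ∈ range (2 ^ k0),
        ind X U (2 ^ k0 * i + r) * ind X U (2 ^ k0 * i + r + (t + 1)) := by
    intro i _
    have h2 := sq_sum_le (fun r => ind X U (2 ^ k0 * i + r)) (fun r => ind_sq _ _ _) (2 ^ k0)
    refine h2.trans ?_
    have h3 : ∀ r ∈ range (2 ^ k0), ∑ s ∈ Ico (r + 1) (2 ^ k0),
        ind X U (2 ^ k0 * i + r) * ind X U (2 ^ k0 * i + s) ≤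
        ∑ t ∈ range (2 ^ k0),
          ind X U (2 ^ k0 * i + r) * ind X U (2 ^ k0 * i + r + (t + 1)) := by
      intro r _
      calc _ ≤ ∑ s ∈ Ico (r + 1) (r + 1 + 2 ^ k0),
            ind X U (2 ^ k0 * i + r) * ind X U (2 ^ k0 * i + s) := by
            apply sum_le_sum_of_subset_of_nonneg
            · intro s hs
              rw [mem_Ico] at hs ⊢; omega
            · intro s _ _
              exact mul_nonneg (ind_nonneg _ _ _) (ind_nonneg _ _ _)
        _ = _ := by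
            rw [sum_Ico_eq_sum_range, Nat.add_sub_cancel_left]
            apply sum_congr rfl; intro t _
            congr 2; ring
    have h4 := sum_le_sum h3
    linarith
  refine (sum_le_sum h1).trans ?_
  rw [sum_add_distrib, sum_const, card_range, nsmul_eq_mul, mul_one, ← mul_sum]
  push_cast
  have h5 : ∑ i ∈ range (2 ^ L), ∑ r ∈ range (2 ^ k0), ∑ t ∈ range (2 ^ k0),
        ind X U (2 ^ k0 * i + r) * ind X U (2 ^ k0 * i + r + (t + 1)) =
      ∑ t ∈ range (2 ^ k0), ∑ j ∈ range (2 ^ (k0 + L)),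
        ind X U j * ind X U (j + (t + 1)) := by
    rw [sum_comm (s := range (2 ^ k0)) (t := range (2 ^ (k0 + L))), pow_add, sum_blocks]
  rw [h5]

lemma pair_count (X U M t : ℕ) :
    ∑ j ∈ range M, ind X U j * ind X U (j + (t + 1)) ≤
      (((Ioc X (X + U)).filter (fun n => n.Prime ∧ (n + (t + 1)).Prime)).card : ℝ) := by
  classical
  have h1 : ∀ j ∈ range M, ind X U j * ind X U (j + (t + 1)) ≤
      if j < U ∧ (X + 1 + j).Prime ∧ (X + 1 + j + (t + 1)).Prime then (1 : ℝ) else 0 := by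
    intro j _
    unfold ind
    have e1 : X + j + 1 = X + 1 + j := by ring
    have e2 : X + (j + (t + 1)) + 1 = X + 1 + j + (t + 1) := by ring
    rw [e1, e2]
    split_ifs with h1 h2 h3 h3 h3 <;> norm_num
    · exact h3 ⟨h1.1, h1.2, h2.2⟩
  refine (sum_le_sum h1).trans ?_
  rw [← sum_filter, sum_const, nsmul_eq_mul, mul_one]
  have h2 : ((range M).filter fun j => j < U ∧ (X + 1 + j).Prime ∧
      (X + 1 + j + (t + 1)).Prime).card ≤
      ((Ioc X (X + U)).filter (fun n => n.Prime ∧ (n + (t + 1)).Prime)).card := by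
    apply card_le_card_of_injOn (fun j => X + 1 + j)
    · intro j hj
      simp only [coe_filter, Set.mem_ofPred_eq, mem_range, mem_Ioc] at hj ⊢
      exact ⟨by omega, hj.2.2⟩
    · intro a _ b _ hab
      simp only at hab; omega
  exact_mod_cast h2

/-- The energy of the primes in `(X, X + 2 H]` at the scale `log X`. -/
lemma energy_primes : ∃ C : ℝ, 1 ≤ C ∧ ∃ u0 : ℕ, ∀ (δ : ℝ) (X H k0 L : ℕ), 0 < δ → δ ≤ 1 →
    3 ≤ X → u0 ≤ H → 1 ≤ H → (X : ℝ) ^ δ ≤ H → (2 : ℝ) ^ k0 ≤ Real.log X →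
    Real.log X ≤ 2 * 2 ^ k0 → (2 : ℝ) ^ (k0 + L) ≤ 4 * H →
    ∑ n ∈ range (2 ^ (k0 + L)), E k0 (fun j => 2 * Real.log X * ind X (2 * H) j) n ^ 2 ≤
      C / δ ^ 2 * H := by
  obtain ⟨C1, hC1, u0, hps⟩ := pair_sieve
  obtain ⟨C2, hC2, hsg⟩ := sum_sg_sq
  refine ⟨64 + 32 * C1 * C2, by nlinarith, u0, ?_⟩
  intro δ X H k0 L hδ hδ1 hX hu0 hH hXH hk1 hk2 hkL
  have hX3 : (3 : ℝ) ≤ X := by exact_mod_cast hX
  have hlX : 0 < Real.log X := Real.log_pos (by linarith)
  have hH1 : (1 : ℝ) ≤ H := by exact_mod_cast hH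
  have hp : (0 : ℝ) < 2 ^ k0 := by positivity
  -- the pairs
  have hlH : δ * Real.log X ≤ Real.log ((2 * H : ℕ) : ℝ) := by
    rw [← Real.log_rpow (by linarith)]
    apply Real.log_le_log (by positivity)
    push_cast; linarith
  have hlH0 : 0 < Real.log ((2 * H : ℕ) : ℝ) := lt_of_lt_of_le (by positivity) hlH
  have h1 : ∑ t ∈ range (2 ^ k0), ∑ j ∈ range (2 ^ (k0 + L)),
      ind X (2 * H) j * ind X (2 * H) (j + (t + 1)) ≤
      C1 * C2 * 2 ^ k0 * ((2 * H : ℕ) : ℝ) / Real.log ((2 * H : ℕ) : ℝ) ^ 2 := by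
    calc _ ≤ ∑ t ∈ range (2 ^ k0), C1 * sg (t + 1) ^ 2 * ((2 * H : ℕ) : ℝ) /
          Real.log ((2 * H : ℕ) : ℝ) ^ 2 := by
          apply sum_le_sum
          intro t _
          exact (pair_count X (2 * H) _ t).trans (hps (t + 1) X (2 * H) (by omega) (by omega))
      _ = C1 * ((2 * H : ℕ) : ℝ) / Real.log ((2 * H : ℕ) : ℝ) ^ 2 *
          ∑ t ∈ range (2 ^ k0), sg (t + 1) ^ 2 := by
          rw [mul_sum]; apply sum_congr rfl; intro t _; ring
      _ = C1 * ((2 * H : ℕ) : ℝ) / Real.log ((2 * H : ℕ) : ℝ) ^ 2 *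
          ∑ h ∈ Icc 1 (2 ^ k0), sg h ^ 2 := by
          congr 1
          have e : Icc 1 (2 ^ k0) = Ico 1 (2 ^ k0 + 1) := by
            ext x; rw [mem_Icc, mem_Ico]; omega
          rw [e, sum_Ico_eq_sum_range, Nat.add_sub_cancel]
          apply sum_congr rfl; intro t _; rw [add_comm]
      _ ≤ C1 * ((2 * H : ℕ) : ℝ) / Real.log ((2 * H : ℕ) : ℝ) ^ 2 *
          (C2 * ((2 ^ k0 : ℕ) : ℝ)) := by
          gcongr
          exact hsg _
      _ = _ := by push_cast; ring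
  have h2 := blocks_pairs X (2 * H) k0 L
  rw [energy_eq]
  have h3 : ∑ i ∈ range (2 ^ L), (∑ r ∈ range (2 ^ k0),
      2 * Real.log X * ind X (2 * H) (2 ^ k0 * i + r)) ^ 2 / 2 ^ k0 =
      4 * Real.log X ^ 2 / 2 ^ k0 *
        ∑ i ∈ range (2 ^ L), (∑ r ∈ range (2 ^ k0), ind X (2 * H) (2 ^ k0 * i + r)) ^ 2 := by
    rw [mul_sum]
    apply sum_congr rfl
    intro i _
    rw [← mul_sum]; ring
  rw [h3]
  have h4 : 4 * Real.log X ^ 2 / 2 ^ k0 * 2 ^ L ≤ 64 * H := by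
    have e1 : 4 * Real.log X ^ 2 / 2 ^ k0 * 2 ^ L =
        4 * (Real.log X / 2 ^ k0) ^ 2 * 2 ^ (k0 + L) := by
      rw [pow_add]; field_simp
    have e2 : Real.log X / 2 ^ k0 ≤ 2 := by
      rw [div_le_iff₀ hp]; exact hk2
    have e3 : 0 ≤ Real.log X / 2 ^ k0 := by positivity
    rw [e1]
    calc 4 * (Real.log X / 2 ^ k0) ^ 2 * 2 ^ (k0 + L) ≤ 4 * 2 ^ 2 * (4 * H) := by gcongr
      _ = _ := by ring
  have h5 : 4 * Real.log X ^ 2 / 2 ^ k0 * (4 * (C1 * C2 * 2 ^ k0 * ((2 * H : ℕ) : ℝ) /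
      Real.log ((2 * H : ℕ) : ℝ) ^ 2)) ≤ 32 * C1 * C2 / δ ^ 2 * H := by
    have e1 : 4 * Real.log X ^ 2 / 2 ^ k0 * (4 * (C1 * C2 * 2 ^ k0 * ((2 * H : ℕ) : ℝ) /
      Real.log ((2 * H : ℕ) : ℝ) ^ 2)) =
      32 * C1 * C2 * H * (Real.log X ^ 2 / Real.log ((2 * H : ℕ) : ℝ) ^ 2) := by
      push_cast; field_simp; ring
    rw [e1]
    have e2 : Real.log X ^ 2 / Real.log ((2 * H : ℕ) : ℝ) ^ 2 ≤ 1 / δ ^ 2 := by
      rw [div_le_div_iff₀ (by positivity) (by positivity), one_mul]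
      calc Real.log X ^ 2 * δ ^ 2 = (δ * Real.log X) ^ 2 := by ring
        _ ≤ _ := by gcongr
    calc _ ≤ 32 * C1 * C2 * H * (1 / δ ^ 2) := by gcongr
      _ = _ := by ring
  have hq : 0 ≤ 4 * Real.log X ^ 2 / 2 ^ k0 := by positivity
  have h6 : (64 : ℝ) * H ≤ 64 / δ ^ 2 * H := by
    have : (1 : ℝ) ≤ 1 / δ ^ 2 := by
      rw [le_div_iff₀ (by positivity), one_mul]
      exact pow_le_one₀ hδ.le hδ1
    have e : (64 : ℝ) / δ ^ 2 * H = 64 * H * (1 / δ ^ 2) := by ring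
    rw [e]
    nlinarith
  calc _ ≤ 4 * Real.log X ^ 2 / 2 ^ k0 * (2 ^ L + 4 * (C1 * C2 * 2 ^ k0 * ((2 * H : ℕ) : ℝ) /
        Real.log ((2 * H : ℕ) : ℝ) ^ 2)) := by
        apply mul_le_mul_of_nonneg_left _ hq
        linarith
    _ = 4 * Real.log X ^ 2 / 2 ^ k0 * 2 ^ L + 4 * Real.log X ^ 2 / 2 ^ k0 *
        (4 * (C1 * C2 * 2 ^ k0 * ((2 * H : ℕ) : ℝ) / Real.log ((2 * H : ℕ) : ℝ) ^ 2)) := by ring
    _ ≤ 64 / δ ^ 2 * H + 32 * C1 * C2 / δ ^ 2 * H := by linarith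
    _ = _ := by ring

/-- `R(x, y) = (π(x + y) - π(x)) / (y / log x)` -/
noncomputable def R (x y : ℝ) : ℝ :=
  ((Nat.primeCounting ⌊x + y⌋₊ : ℝ) - Nat.primeCounting ⌊x⌋₊) / (y / Real.log x)

lemma pc_sum (n m : ℕ) : (Nat.primeCounting (n + m) : ℝ) - Nat.primeCounting n =
    ∑ r ∈ range m, if (n + r + 1).Prime then (1 : ℝ) else 0 := by
  induction m with
  | zero => simp
  | succ m ih =>
      rw [sum_range_succ, ← ih]
      have h1 : Nat.primeCounting (n + (m + 1)) =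
          Nat.primeCounting (n + m) + if (n + m + 1).Prime then 1 else 0 := by
        simp only [Nat.primeCounting, Nat.primeCounting']
        rw [← add_assoc, Nat.count_succ]
      rw [h1]
      push_cast
      ring

lemma R_eq {X H m : ℕ} (hX : 3 ≤ X) (hm : m ≤ H) {y : ℝ} (hy0 : 0 < y)
    (hy : y ≤ H) : R ((X + m : ℕ) : ℝ) y = Real.log ((X + m : ℕ) : ℝ) / (2 * Real.log X) *
      AR (fun j => 2 * Real.log X * ind X (2 * H) j) m y := by
  have hX3 : (3 : ℝ) ≤ X := by exact_mod_cast hX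
  have hlX : 0 < Real.log X := Real.log_pos (by linarith)
  have hfl : ⌊y⌋₊ ≤ H := by
    have := Nat.floor_mono hy
    rwa [Nat.floor_natCast] at this
  have e1 : ⌊((X + m : ℕ) : ℝ) + y⌋₊ = (X + m) + ⌊y⌋₊ := by
    rw [add_comm ((X + m : ℕ) : ℝ) y, Nat.floor_add_natCast hy0.le, add_comm]
  have e2 : ((Nat.primeCounting ⌊((X + m : ℕ) : ℝ) + y⌋₊ : ℝ) -
      Nat.primeCounting ⌊((X + m : ℕ) : ℝ)⌋₊) = (Nat.primeCounting (X + m + ⌊y⌋₊) : ℝ) -
        Nat.primeCounting (X + m) := by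
    rw [e1, Nat.floor_natCast]
  have e3 : S (fun j => 2 * Real.log X * ind X (2 * H) j) (m + ⌊y⌋₊) -
      S (fun j => 2 * Real.log X * ind X (2 * H) j) m =
      2 * Real.log X * ((Nat.primeCounting (X + m + ⌊y⌋₊) : ℝ) -
        Nat.primeCounting (X + m)) := by
    rw [S_range, ← mul_sum, pc_sum]
    congr 1
    apply sum_congr rfl
    intro r hr
    rw [mem_range] at hr
    unfold ind
    have : m + r < 2 * H := by omega
    simp only [this, true_and, ← add_assoc]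
  rw [R, e2, AR, e3]
  field_simp

lemma Jumps.append {F : ℝ → ℝ} {ε a b b' : ℝ} {J : ℕ} (h : Jumps F ε a b J) (hab : a ≤ b)
    {y y' : ℝ} (h1 : b ≤ y) (h2 : y < y') (h3 : y' ≤ b') (h4 : ε < |F y' - F y|) :
    Jumps F ε a b' (J + 1) := by
  classical
  obtain ⟨s, t, c1, c2⟩ := h
  refine ⟨fun i => if i < J then s i else y, fun i => if i < J then t i else y', ?_, ?_⟩
  · intro i hi
    by_cases hiJ : i < J
    · simp only [if_pos hiJ]
      obtain ⟨d1, d2, d3, d4⟩ := c1 i hiJ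
      exact ⟨d1, d2, by linarith, d4⟩
    · simp only [if_neg hiJ]
      exact ⟨by linarith, h2, h3, h4⟩
  · intro i hi
    have hiJ : i < J := by omega
    simp only [if_pos hiJ]
    split_ifs with h5
    · exact c2 i h5
    · exact (c1 i hiJ).2.2.1.trans h1

lemma jumps_zero (F : ℝ → ℝ) (ε a b : ℝ) : Jumps F ε a b 0 :=
  ⟨fun _ => 0, fun _ => 0, fun i hi => absurd hi (Nat.not_lt_zero i),
    fun i hi => absurd hi (by omega)⟩

open Classical in
lemma jumps_blocks (F : ℝ → ℝ) {ε : ℝ} (hε : 0 < ε) (T : ℕ → ℝ) (r : ℕ)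
    (hT : ∀ i < r, T i ≤ T (i + 1)) :
    T 0 ≤ T r ∧ Jumps F ε (T 0) (T r) ((range r).filter (fun i =>
      ∃ y y', T i ≤ y ∧ y ≤ y' ∧ y' ≤ T (i + 1) ∧ ε < |F y' - F y|)).card := by
  induction r with
  | zero => simpa using jumps_zero F ε (T 0) (T 0)
  | succ r ih =>
      obtain ⟨h0, h1⟩ := ih fun i hi => hT i (by omega)
      have h2 := hT r (by omega)
      refine ⟨h0.trans h2, ?_⟩
      rw [range_add_one, filter_insert]
      split_ifs with h3
      · rw [card_insert_of_notMem (by simp)]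
        obtain ⟨y, y', g1, g2, g3, g4⟩ := h3
        have g5 : y < y' := by
          rcases lt_or_eq_of_le g2 with h | h
          · exact h
          · exfalso; rw [h, sub_self, abs_zero] at g4; linarith
        exact h1.append h0 g1 g5 g3 g4
      · exact h1.mono le_rfl h2

/-- **The jump inequality for primes in short intervals.** -/
theorem main : ∃ C : ℝ, 0 < C ∧ ∀ δ : ℝ, 0 < δ → δ ≤ 1 → ∀ᶠ X : ℕ in atTop, ∀ H : ℕ,
    (X : ℝ) ^ δ ≤ H → H ≤ X → ∀ ε : ℝ, 0 < ε → ∀ J : ℕ → ℕ,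
      (∀ n ∈ Ioc X (X + H), Jumps (R n) ε (Real.log X) H (J n)) →
      ∑ n ∈ Ioc X (X + H), (J n : ℝ) ≤ C / (δ * ε) ^ 2 * H := by
  classical
  obtain ⟨C, hC, u0, hen⟩ := energy_primes
  refine ⟨1700000 * C, by linarith, fun δ hδ hδ1 => ?_⟩
  have ht : Tendsto (fun X : ℕ => (X : ℝ) ^ δ) atTop atTop :=
    (tendsto_rpow_atTop hδ).comp tendsto_natCast_atTop_atTop
  have hlog : ∀ᶠ X : ℕ in atTop, Real.log X ≤ (X : ℝ) ^ δ := by
    have h := (isLittleO_log_rpow_atTop hδ).bound one_pos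
    have h2 := (tendsto_natCast_atTop_atTop (R := ℝ)).eventually h
    filter_upwards [h2, eventually_ge_atTop 1] with X h3 h4
    have h5 : (1 : ℝ) ≤ X := by exact_mod_cast h4
    rw [Real.norm_of_nonneg (Real.log_nonneg h5), one_mul,
      Real.norm_of_nonneg (by positivity)] at h3
    exact h3
  filter_upwards [ht.eventually_ge_atTop (max u0 1 : ℝ), hlog, eventually_ge_atTop 3]
    with X h1 h2 hX H hXH hHX ε hε J hJ
  have hX3 : (3 : ℝ) ≤ X := by exact_mod_cast hX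
  have hlX1 : 1 ≤ Real.log X := by
    rw [Real.le_log_iff_exp_le (by linarith)]
    linarith [Real.exp_one_lt_d9]
  have hu0 : u0 ≤ H := by
    have : (u0 : ℝ) ≤ H := (le_max_left _ _).trans (h1.trans hXH)
    exact_mod_cast this
  have hH1 : 1 ≤ H := by
    have : (1 : ℝ) ≤ H := (le_max_right _ _).trans (h1.trans hXH)
    exact_mod_cast this
  -- the scales
  set k0 := Nat.log 2 ⌊Real.log X⌋₊ with hk0
  have hfl : ⌊Real.log X⌋₊ ≠ 0 := by
    have : 1 ≤ ⌊Real.log X⌋₊ := Nat.le_floor (by push_cast; exact hlX1)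
    omega
  have hk1 : (2 : ℝ) ^ k0 ≤ Real.log X := by
    have := Nat.pow_log_le_self 2 hfl
    have h3 : ((2 ^ k0 : ℕ) : ℝ) ≤ (⌊Real.log X⌋₊ : ℝ) := by exact_mod_cast this
    push_cast at h3
    exact h3.trans (Nat.floor_le (by linarith))
  have hk2 : Real.log X ≤ 2 * 2 ^ k0 := by
    have := Nat.lt_pow_succ_log_self (b := 2) (by norm_num) ⌊Real.log X⌋₊
    have h3 : (⌊Real.log X⌋₊ : ℝ) + 1 ≤ ((2 ^ (k0 + 1) : ℕ) : ℝ) := by exact_mod_cast this
    push_cast at h3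
    have h4 := Nat.lt_floor_add_one (Real.log X)
    rw [pow_succ] at h3
    linarith
  set K := Nat.log 2 (2 * H) + 1 with hK
  have hK1 : 2 * H < 2 ^ K := Nat.lt_pow_succ_log_self (by norm_num) _
  have hK2 : 2 ^ K ≤ 4 * H := by
    have := Nat.pow_log_le_self 2 (show 2 * H ≠ 0 by omega)
    rw [hK, pow_succ]; omega
  have hkK : k0 ≤ K := by
    have h3 : (2 : ℝ) ^ k0 < ((2 ^ K : ℕ) : ℝ) := by
      have h4 : (2 : ℝ) * H < ((2 ^ K : ℕ) : ℝ) := by exact_mod_cast hK1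
      have : (0 : ℝ) ≤ H := Nat.cast_nonneg _
      linarith
    have h4 : 2 ^ k0 < 2 ^ K := by exact_mod_cast h3
    exact ((Nat.pow_lt_pow_iff_right (by norm_num)).1 h4).le
  obtain ⟨L, hL⟩ := Nat.exists_eq_add_of_le hkK
  rw [hL] at hK1 hK2
  set f : ℕ → ℝ := fun j => 2 * Real.log X * ind X (2 * H) j with hf
  have hf0 : ∀ n, 0 ≤ f n := fun n => mul_nonneg (by linarith) (ind_nonneg _ _ _)
  have hfs : ∀ n, 2 ^ (k0 + L) ≤ n → f n = 0 := by
    intro n hn
    simp only [hf, ind]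
    rw [if_neg (by omega), mul_zero]
  have hE := hen δ X H k0 L hδ hδ1 hX hu0 hH1 hXH hk1 hk2 (by exact_mod_cast hK2)
  -- the numbers of jumps
  set J' : ℕ → ℕ := fun m => if 1 ≤ m ∧ m ≤ H then J (X + m) else 0 with hJ'
  have hHr : (1 : ℝ) ≤ H := by exact_mod_cast hH1
  have hlH : Real.log X ≤ H := h2.trans hXH
  have hmain := jump_inequality k0 L hf0 hfs hε (b := (H : ℝ)) (by linarith)
    (by
      have : (2 : ℝ) * H < ((2 ^ (k0 + L) : ℕ) : ℝ) := by exact_mod_cast hK1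
      push_cast at this; linarith) J'
    (by
      intro m _
      simp only [hJ']
      split_ifs with hm
      · obtain ⟨s, t, c1, c2⟩ := hJ (X + m) (by rw [mem_Ioc]; omega)
        refine ⟨s, t, fun i hi => ?_, c2⟩
        obtain ⟨d1, d2, d3, d4⟩ := c1 i hi
        refine ⟨by linarith, d2, d3, ?_⟩
        rw [R_eq hX hm.2 (by linarith) d3, R_eq hX hm.2 (by linarith) (by linarith),
          ← mul_sub, abs_mul] at d4
        have hr0 : 0 ≤ Real.log ((X + m : ℕ) : ℝ) / (2 * Real.log X) := by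
          apply div_nonneg _ (by linarith)
          apply Real.log_nonneg
          push_cast
          have : (0 : ℝ) ≤ m := Nat.cast_nonneg _
          linarith
        have hr1 : Real.log ((X + m : ℕ) : ℝ) / (2 * Real.log X) ≤ 1 := by
          rw [div_le_one (by linarith)]
          have e : 2 * Real.log X = Real.log ((X : ℝ) ^ 2) := by
            rw [Real.log_pow]; push_cast; ring
          rw [e]
          apply Real.log_le_log
          · push_cast
            have : (0 : ℝ) ≤ m := Nat.cast_nonneg _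
            linarith
          · have hmX : (m : ℝ) ≤ X := by exact_mod_cast hm.2.trans hHX
            push_cast
            nlinarith
        rw [abs_of_nonneg hr0] at d4
        refine d4.trans_le ?_
        calc _ ≤ 1 * |AR f m (t i) - AR f m (s i)| := by gcongr
          _ = _ := one_mul _
      · exact jumps_zero _ _ _ _)
  have hsum : ∑ n ∈ Ioc X (X + H), (J n : ℝ) ≤ ∑ m ∈ range (2 ^ (k0 + L)), (J' m : ℝ) := by
    have e1 : Ioc X (X + H) = Ico (X + 1) (X + 1 + H) := by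
      ext x; rw [mem_Ioc, mem_Ico]; omega
    rw [e1, sum_Ico_eq_sum_range, Nat.add_sub_cancel_left]
    have e2 : ∑ m ∈ range H, (J (X + 1 + m) : ℝ) = ∑ m ∈ range H, (J' (m + 1) : ℝ) := by
      apply sum_congr rfl
      intro m hm
      rw [mem_range] at hm
      simp only [hJ']
      rw [if_pos (by omega)]
      congr 2; ring
    have e3 : ∑ m ∈ range (H + 1), (J' m : ℝ) = ∑ m ∈ range H, (J' (m + 1) : ℝ) + (J' 0 : ℝ) :=
      sum_range_succ' _ _
    have e4 : ∑ m ∈ range (H + 1), (J' m : ℝ) ≤ ∑ m ∈ range (2 ^ (k0 + L)), (J' m : ℝ) := by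
      apply sum_le_sum_of_subset_of_nonneg
      · intro x hx; rw [mem_range] at hx ⊢; omega
      · intro _ _ _; exact Nat.cast_nonneg _
    have e5 : (0 : ℝ) ≤ J' 0 := Nat.cast_nonneg _
    linarith
  calc _ ≤ _ := hsum
    _ ≤ _ := hmain
    _ ≤ 1700000 / ε ^ 2 * (C / δ ^ 2 * H) := by gcongr
    _ = _ := by rw [mul_pow]; field_simp

end Pool.Agent.J6H52.Jump
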